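import Pool.Agent.Lib.SX21.Blue

/-! Row SPLIT: a short segment of high level. -/

namespace Pool.Agent.Lib.SX21

open MeasureTheory ProbabilityTheory Finset Pool.Agent.Lib.FP95
open Pool.Agent.Lib.MP_eba68f_pr hiding Nice
open Pool.Agent.Lib.SL94 (SW T)
open Pool.Agent.Lib.SB97 (Qt Pth Dt)
open Pool.Agent.Lib.SBW (Sw Gain Lin Adm Light Rare Sh)
open scoped NNReal ENNReal

namespace SPLIT

theorem lowT (u v : V) (c : ℝ) : IsLowerSet {τ : Cfg | T τ u v ≤ c} :=
  fun _ _ h k => (SL94.T_mono h u v).trans k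

theorem measT (u v : V) (c : ℝ) : MeasurableSet {τ : Cfg | T τ u v ≤ c} :=
  measurableSet_le (SL94.T_meas u v) measurable_const

theorem lowE (e : Sym2 V) (c : ℝ≥0) : IsLowerSet {τ : Cfg | τ e ≤ c} :=
  fun _ _ h k => (h e).trans k

theorem measE (e : Sym2 V) (c : ℝ≥0) : MeasurableSet {τ : Cfg | τ e ≤ c} :=
  measurableSet_le (measurable_pi_apply e) measurable_const

/-- a passage time event and a light edge -/
theorem two (hH : SB97.St_HAR) (p : Sw) (u y : V) (e : Sym2 V) {A a θ : ℝ} (hθ : θ ≤ p.q)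
    (ha : 0 ≤ a) (h : a ≤ p.pr {τ | T τ u y ≤ A}) :
    θ * a ≤ p.pr ({τ : Cfg | τ e ≤ p.lo} ∩ {τ | T τ u y ≤ A}) :=
  (mul_le_mul (hθ.trans (p.q_pr e)) h ha (p.pr_nonneg _)).trans
    (hH p.toPar _ _ (measE e p.lo) (measT u y A) (lowE e p.lo) (lowT u y A))

theorem pw {θ : ℝ} (h0 : 0 < θ) (h : θ ≤ 1 / 2) {m n : ℕ} (hm : n < m) : θ ^ m ≤ θ ^ n / 2 := by
  have h1 : θ ^ m ≤ θ ^ (n + 1) := pow_le_pow_of_le_one h0.le (by linarith) hm
  have h2 := mul_le_mul_of_nonneg_left h (pow_pos h0 n).le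
  rw [pow_succ] at h1
  linarith

end SPLIT

open SPLIT in
theorem bSPLIT (hH : SB97.St_HAR) (hD : SBW.St_DICH) (hC : St_CASE) (hT1 : St_T1) (hT2 : St_T2) :
    St_SPLIT := by
  intro p hR K hK hLin z v θ t H ρ hA hq hθ hρ hs1 hs2 hd hQ
  have h0 : 0 < θ := hA.1
  have hdd : p.d = p.hi - p.lo := rfl
  have hd0 := p.d_pos
  have hρ0 : (0 : ℝ) ≤ ρ := Nat.cast_nonneg ρ
  have hd6 : 6 * (ρ : ℝ) ≤ p.nn (v - z) := by exact_mod_cast hd
  have w1 := pw h0 hθ (show 0 < 8 by omega)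
  have w2 := pw h0 hθ (show 0 < 5 by omega)
  have w3 := pw h0 hθ (show 0 < 6 by omega)
  have w4 := pw h0 hθ (show 0 < 4 by omega)
  rw [pow_zero] at w1 w2 w3 w4
  have p4 := pow_pos h0 4
  have p5 := pow_pos h0 5
  have p8 := pow_pos h0 8
  have p16 := pow_pos h0 16
  have e1 : θ ^ 8 * θ / (2 * θ ^ 5) = θ ^ 4 / 2 := by field_simp
  rcases hC p.toPar (p.nr z ((2 * ρ : ℕ) : ℝ)) z v (θ ^ 8) (2 * θ ^ 5) t H hA.2.2.1
    (by positivity) p8 hQ.1 with h | ⟨Z, z1, z2, z3, z4⟩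
  · rcases hT2 p hR K hK hLin _ z v (θ ^ 8) (2 * θ ^ 5) θ t H (2 * ρ) hA p8 w1 (by positivity)
      (by rw [e1]; linarith) (by omega) subset_rfl (by push_cast; linarith) hs2 hQ h with
      h' | ⟨y, z₁, A₁, A', b1, -, b2, b3, b4, b5⟩
    · exact Or.inl ((pw h0 hθ (by omega)).trans h')
    rw [e1] at b4
    have b6 : p.nn (z₁ - z) ≤ 4 * ρ := by
      have := b2.2
      push_cast at this
      linarith
    have b7 := p.nn_tri z z₁ v
    have m1 := (measE s(y, z₁) p.lo).inter (measT z y A₁)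
    have l1 := (lowE s(y, z₁) p.lo).inter (lowT z y A₁)
    have c1 := two hH p z y s(y, z₁) hq (by positivity) b3.2
    rcases hD p hR z₁ v 1 ρ (θ ^ 4 / 2) θ A' H le_rfl hρ (by positivity) (by linarith) hA b4
      (by push_cast; linarith)
      (by rw [Nat.cast_one, one_mul]; exact hs1.trans (pw h0 hθ (by omega))) with
      h' | ⟨S, y', z', A₂, B₂, hS, h'⟩
    · left
      have c2 := hH p.toPar _ _ m1 (measT z₁ v (A' - H + p.d / 2)) l1 (lowT _ _ _)
      have c3 := mul_le_mul c1 h' (by positivity) (p.pr_nonneg _)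
      have c4 := pw h0 hθ (show 15 < 17 by omega)
      have c5 := pw h0 hθ (show 14 < 15 by omega)
      have c6 : θ * (θ ^ 8 * θ) * (θ ^ 4 / 2 / 2) = θ ^ 14 / 4 := by ring
      refine le_trans (by linarith) (c3.trans (c2.trans (p.pr_mono ?_)))
      rintro τ ⟨⟨k1, k2⟩, k3⟩
      have k1' : (τ s(y, z₁) : ℝ) ≤ p.lo := NNReal.coe_le_coe.2 k1
      have k2' : T τ z y ≤ A₁ := k2
      have k3' : T τ z₁ v ≤ A' - H + p.d / 2 := k3
      have k4 := SL94.T_tri τ z y v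
      have k5 := SL94.T_tri τ y z₁ v
      have k6 := SL94.T_adj τ b1
      show T τ z v ≤ t - H + p.d / 2
      linarith
    · right
      obtain ⟨j, hj⟩ : S.Nonempty := card_pos.1 (by omega)
      obtain ⟨j1, j2, f1, f2, -, f3, f4, f5⟩ := h' j hj
      obtain rfl : j = 1 := le_antisymm j2 j1
      have f6 := f2.1
      have f7 := f2.2
      push_cast at f6 f7
      have m2 := (measE s(y' 1, z' 1) p.lo).inter (measT (z' 1) v (B₂ 1))
      have l2 := (lowE s(y' 1, z' 1) p.lo).inter (lowT (z' 1) v (B₂ 1))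
      have c2 := two hH p (z' 1) v s(y' 1, z' 1) hq (by positivity) f4.2
      have c3 := mul_le_mul c1 c2 (by positivity) (p.pr_nonneg _)
      have c4 := pw h0 hθ (show 16 < 17 by omega)
      have c5 := pw h0 hθ (show 5 < 6 by omega)
      have c6 : θ * (θ ^ 8 * θ) * (θ * (θ ^ 4 / 2 * θ)) = θ ^ 16 / 2 := by ring
      have c7 : θ ^ 4 / 2 * θ = θ ^ 5 / 2 := by ring
      refine ⟨z₁, y' 1, _, A₂ 1, _, b6, by linarith, by linarith, by linarith, by linarith, f3,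
        m1.inter m2, l1.inter l2,
        le_trans (by linarith) (c3.trans (hH p.toPar _ _ m1 m2 l1 l2)), ?_⟩
      rintro τ ⟨⟨k1, k2⟩, k3, k4⟩
      have k1' : (τ s(y, z₁) : ℝ) ≤ p.lo := NNReal.coe_le_coe.2 k1
      have k2' : T τ z y ≤ A₁ := k2
      have k3' : (τ s(y' 1, z' 1) : ℝ) ≤ p.lo := NNReal.coe_le_coe.2 k3
      have k4' : T τ (z' 1) v ≤ B₂ 1 := k4
      have k5 := SL94.T_tri τ z y v
      have k6 := SL94.T_tri τ y z₁ v
      have k7 := SL94.T_tri τ z₁ (y' 1) v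
      have k8 := SL94.T_tri τ (y' 1) (z' 1) v
      have k9 := SL94.T_adj τ b1
      have k10 := SL94.T_adj τ f1
      linarith
  · have e2 : 2 * θ ^ 5 * θ ^ 8 / 2 = θ ^ 13 := by ring
    rcases hT1 p hR K hK hLin Z z v (θ ^ 8) (2 * θ ^ 5) θ t H ρ hA p8 (by linarith)
      (by positivity) (by linarith) hρ (by push_cast; linarith) (by rw [e2]; exact hs1) z1 z2 z3
      z4 with h' | ⟨y, z₁, A, A', b1, b2, -, b3, b4, b5⟩
    · left
      have c1 := pw h0 hθ (show 13 < 17 by omega)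
      exact le_trans (by linarith) h'
    right
    have f6 := b2.1
    have f7 := b2.2
    push_cast at f6 f7
    have c1 := two hH p z₁ v s(y, z₁) hq (by positivity) b4.2
    have c2 := pw h0 hθ (show 15 < 17 by omega)
    have c3 : θ * (2 * θ ^ 5 * θ ^ 8 * θ / 2) = θ ^ 15 := by ring
    have c4 : 2 * θ ^ 5 * θ / 2 = θ ^ 6 := by ring
    have c5 := pow_pos h0 15
    have c6 : p.nn (z - z) = 0 := by
      rw [sub_self]
      unfold Sw.nn
      rw [n1_zero', zero_div]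
    refine ⟨z, y, _, A, _, by linarith, by linarith, by linarith, c4.ge, by linarith, b3,
      (measE s(y, z₁) p.lo).inter (measT z₁ v A'), (lowE s(y, z₁) p.lo).inter (lowT z₁ v A'),
      le_trans (by linarith) c1, ?_⟩
    rintro τ ⟨k1, k2⟩
    have k1' : (τ s(y, z₁) : ℝ) ≤ p.lo := NNReal.coe_le_coe.2 k1
    have k2' : T τ z₁ v ≤ A' := k2
    have k4 := SL94.T_tri τ z y v
    have k5 := SL94.T_tri τ y z₁ v
    have k6 := SL94.T_adj τ b1
    linarith

end Pool.Agent.Lib.SX21
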