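import Pool.Agent.Lib.SX21.Blue0
import Pool.Agent.Lib.SB97.B_ARITH

/-! Row ARITH: choice of the parameters for fixed levels. -/

namespace Pool.Agent.Lib.SX21

namespace ARITH

lemma expo (C₁ C₂ e k : ℕ) (hk : 1 ≤ k) :
    (4 * C₂ + 6 + (5 + (e + 12 * k) * 107)) * (6 * k + 1) +
      (2 * (9 + 2 * (1 + C₁ + (5 + (e + 12 * k) * 107)) + (e + 12 * k) * 56) + 16) ≤
      (7 * (4 * C₂ + 11 + (e + 12) * 107) +
        (2 * (9 + 2 * (6 + C₁ + (e + 12) * 107) + (e + 12) * 56) + 16)) * k ^ 2 := by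
  have c1 : ∀ c : ℕ, c ≤ c * k := fun c => Nat.le_mul_of_pos_right c hk
  have h12 : k ≤ k ^ 2 := by
    rw [sq]
    exact c1 k
  have b1 : 4 * C₂ + 6 + (5 + (e + 12 * k) * 107) ≤ (4 * C₂ + 11 + (e + 12) * 107) * k := by
    have h1 := c1 C₂
    have h2 := c1 e
    have e1 : (4 * C₂ + 11 + (e + 12) * 107) * k = 4 * (C₂ * k) + 107 * (e * k) + 1295 * k := by
      ring
    rw [e1]
    omega
  have b2 : 2 * (9 + 2 * (1 + C₁ + (5 + (e + 12 * k) * 107)) + (e + 12 * k) * 56) + 16 ≤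
      (2 * (9 + 2 * (6 + C₁ + (e + 12) * 107) + (e + 12) * 56) + 16) * k := by
    have h1 := c1 C₁
    have h2 := c1 e
    have e1 : (2 * (9 + 2 * (6 + C₁ + (e + 12) * 107) + (e + 12) * 56) + 16) * k =
        4 * (C₁ * k) + 540 * (e * k) + 6538 * k := by ring
    rw [e1]
    omega
  have b3 := Nat.mul_le_mul b1 (show 6 * k + 1 ≤ 7 * k by omega)
  have b4 := b2.trans (Nat.mul_le_mul_left _ h12)
  rw [add_mul (7 * (4 * C₂ + 11 + (e + 12) * 107))]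
  refine Nat.add_le_add (b3.trans (le_of_eq ?_)) b4
  ring

end ARITH

theorem bARITH : St_ARITH := by
  intro c₀ C₁ C₂ h0 _
  obtain ⟨e, he⟩ := exists_pow_lt_of_lt_one h0 (show (1 / 2 : ℝ) < 1 by norm_num)
  refine ⟨7 * (4 * C₂ + 11 + (e + 12) * 107) +
    (2 * (9 + 2 * (6 + C₁ + (e + 12) * 107) + (e + 12) * 56) + 16), fun k hk => ?_⟩
  have hθ : (1 / 2 : ℝ) ^ (e + 12 * k) ≤ c₀ / 4 ^ (6 * k) := by
    have h4 : (4 : ℝ) ^ (6 * k) = 2 ^ (12 * k) := by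
      rw [show (4 : ℝ) = 2 ^ 2 by norm_num, ← pow_mul]
      congr 1
      ring
    rw [h4, pow_add, le_div_iff₀ (by positivity), mul_assoc, ← mul_pow]
    norm_num
    simpa using he.le
  have hp : ∀ n : ℕ, (1 / 2 : ℝ) ^ ((e + 12 * k) * n) ≤ (c₀ / 4 ^ (6 * k)) ^ n := fun n => by
    rw [pow_mul]
    exact pow_le_pow_left₀ (by positivity) hθ n
  have hinv : ∀ n : ℕ, (1 / 2 : ℝ) ^ n * 2 ^ n = 1 := fun n => by
    rw [← mul_pow]
    norm_num
  refine ⟨2 ^ (5 + (e + 12 * k) * 107),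
    2 * (9 + 2 * (1 + C₁ + (5 + (e + 12 * k) * 107)) + (e + 12 * k) * 56) + 16,
    by omega, ?_, fun ρ hρ => ?_, ?_⟩
  · have h1 := hp 107
    have h2 := hinv ((e + 12 * k) * 107)
    have h3 : (0 : ℝ) < 2 ^ ((e + 12 * k) * 107) := by positivity
    have h4 := mul_le_mul_of_nonneg_right h1 h3.le
    rw [h2] at h4
    rw [Nat.cast_pow, Nat.cast_ofNat, pow_add (2 : ℝ) 5, mul_left_comm]
    linarith
  · have h0' : C₁ * 2 ^ (5 + (e + 12 * k) * 107) * ρ ≤ 2 * C₁ * 2 ^ (5 + (e + 12 * k) * 107) * ρ :=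
      Nat.mul_le_mul_right _ (Nat.mul_le_mul_right _ (by omega))
    have h1 := (Nat.mul_le_mul_right (2 ^ ((e + 12 * k) * 56))
      (Nat.mul_le_mul_left 400 (Nat.pow_le_pow_left h0' 2))).trans (SB97.ARITH.third C₁ _ _ ρ hρ)
    have h2 : (400 : ℝ) * ((C₁ : ℝ) * ((2 ^ (5 + (e + 12 * k) * 107) : ℕ) : ℝ) * ρ) ^ 2 *
        2 ^ ((e + 12 * k) * 56) ≤ 2 ^ ρ := by exact_mod_cast h1
    refine le_trans ?_ (hp 56)
    rw [one_div_pow, one_div_pow, mul_one_div, div_le_div_iff₀ (by positivity) (by positivity),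
      one_mul]
    exact h2
  · have h0' : C₂ * 2 ^ (5 + (e + 12 * k) * 107) ≤ (4 * C₂ + 6) * 2 ^ (5 + (e + 12 * k) * 107) :=
      Nat.mul_le_mul_right _ (by omega)
    exact ((Nat.mul_le_mul_right _ (Nat.pow_le_pow_left h0' _)).trans
      (SB97.ARITH.fourth C₂ _ _ _)).trans
      (Nat.pow_le_pow_right (by norm_num) (ARITH.expo C₁ C₂ e k hk))

end Pool.Agent.Lib.SX21
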