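import Pool.Agent.Lib.SX21.Blue0

/-! The case split on the second moment of the average. -/

namespace Pool.Agent.Lib.SX21

open MeasureTheory ProbabilityTheory Filter Topology Finset Pool.Agent.Lib.FP95
open Pool.Agent.Lib.MP_eba68f_pr hiding Nice
open Pool.Agent.Lib.SL94 (SW T)
open scoped NNReal ENNReal

namespace CASE

lemma int_ind (p : Par) {A : Set Cfg} (hA : MeasurableSet A) (c : ℝ) :
    ∫ τ, c * A.indicator (fun _ => (1 : ℝ)) τ ∂p.P = c * p.pr A := by
  rw [integral_const_mul, integral_indicator_const _ hA, smul_eq_mul, mul_one]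
  rfl

lemma psi_zero {u v : V} {t H : ℝ} (hH : 0 ≤ H) {τ : Cfg} (h : ¬ T τ u v < t) :
    Psi u v t H τ = 0 := by
  unfold Psi
  rw [min_eq_left (not_lt.1 h), max_eq_right (by linarith), sub_self]

lemma off_ind {B : Set (Sym2 V)} {Z : Set Cfg} (hZ : OffS B Z) :
    Off B (Z.indicator fun _ => (1 : ℝ)) := by
  intro τ τ' h
  by_cases hτ : τ ∈ Z
  · rw [Set.indicator_of_mem hτ, Set.indicator_of_mem (hZ τ τ' h hτ)]
  · rw [Set.indicator_of_notMem hτ,
      Set.indicator_of_notMem fun h' => hτ (hZ τ' τ (fun e he => (h e he).symm) h')]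

end CASE

open CASE in
theorem bCASE (hKIT : St_KIT) (hCOND : St_COND) : St_CASE := by
  intro p B u v α κ t H hH hκ hα hq
  obtain ⟨-, -, -, -, -, -, -, -, -, -, hP, -, -⟩ := hKIT
  obtain ⟨hN, hb⟩ := hP u v t H hH.le
  obtain ⟨f, hf, hf0, hoff, hid⟩ := hCOND p B _ H hN hb
  have key : ∀ Z, MeasurableSet Z → OffS B Z →
      ∫ τ, f τ * Z.indicator (fun _ => (1 : ℝ)) τ ∂p.P ≤
        H * p.pr ({τ | T τ u v < t} ∩ Z) := by
    intro Z hZ hZo
    have h1 := hid _ (FP95.Nice.ind hZ) (off_ind hZo)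
    have hm : MeasurableSet ({τ | T τ u v < t} ∩ Z) := (SL94.meas_lt u v t).inter hZ
    have h2 : ∫ τ, -(Psi u v t H τ * Z.indicator (fun _ => (1 : ℝ)) τ) ∂p.P ≤
        ∫ τ, H * ({τ | T τ u v < t} ∩ Z).indicator (fun _ => (1 : ℝ)) τ ∂p.P := by
      refine integral_mono ((hN.mul (FP95.Nice.ind hZ)).int p.P).neg
        (((FP95.Nice.const H).mul (FP95.Nice.ind hm)).int p.P) fun τ => ?_
      by_cases h3 : τ ∈ Z
      · by_cases h4 : T τ u v < t
        · have h5 : τ ∈ {τ | T τ u v < t} ∩ Z := ⟨h4, h3⟩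
          simp only [Set.indicator_of_mem h3, Set.indicator_of_mem h5]
          linarith [(hb τ).1]
        · have h5 : τ ∉ {τ | T τ u v < t} ∩ Z := fun h => h4 h.1
          simp only [Set.indicator_of_notMem h5, psi_zero hH.le h4]
          simp
      · have h5 : τ ∉ {τ | T τ u v < t} ∩ Z := fun h => h3 h.2
        simp only [Set.indicator_of_notMem h5, Set.indicator_of_notMem h3]
        simp
    rw [integral_neg, int_ind p hm, h1, neg_neg] at h2
    exact h2
  by_cases hc : ∫ τ, f τ ^ 2 ∂p.P ≤ H ^ 2 * (κ * α)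
  · left
    refine ⟨fun τ => (-1) * f τ, (FP95.Nice.const _).mul hf, ?_, fun Y hY hO => ?_⟩
    · simpa using hc
    · rw [hid Y hY fun τ τ' h => hO.1 τ τ' h trivial trivial, ← integral_neg]
      congr 1
      funext τ
      ring
  · right
    have hZ : MeasurableSet {τ | κ * H / 2 ≤ f τ} := measurableSet_le measurable_const hf.1
    have hZo : OffS B {τ | κ * H / 2 ≤ f τ} := fun τ τ' h hτ => by
      have := hoff τ τ' h
      simp only [Set.mem_ofPred_eq] at hτ ⊢
      rwa [← this]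
    set Z := {τ | κ * H / 2 ≤ f τ} with hZdef
    have k1 := key Z hZ hZo
    have k2 := key Set.univ MeasurableSet.univ fun _ _ _ _ => trivial
    simp only [Set.indicator_univ, mul_one, Set.inter_univ] at k2
    have nZ : Nice fun τ => f τ * Z.indicator (fun _ => (1 : ℝ)) τ := hf.mul (FP95.Nice.ind hZ)
    have n2 : Nice fun τ => f τ ^ 2 := by simpa only [sq] using hf.mul hf
    have k3 : ∫ τ, f τ ^ 2 ∂p.P ≤
        ∫ τ, H * (f τ * Z.indicator (fun _ => (1 : ℝ)) τ) + κ * H / 2 * f τ ∂p.P := by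
      refine integral_mono (n2.int p.P)
        ((((FP95.Nice.const H).mul nZ).add ((FP95.Nice.const _).mul hf)).int p.P) fun τ => ?_
      obtain ⟨a0, a1⟩ := hf0 τ
      have hkH : 0 < κ * H / 2 := by positivity
      by_cases h3 : τ ∈ Z
      · simp only [Set.indicator_of_mem h3]
        nlinarith [mul_nonneg hkH.le a0, mul_nonneg a0 (sub_nonneg.2 a1)]
      · have h4 : f τ < κ * H / 2 := not_le.1 h3
        simp only [Set.indicator_of_notMem h3]
        nlinarith [mul_nonneg a0 (sub_nonneg.2 h4.le)]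
    rw [integral_add (((FP95.Nice.const H).mul nZ).int p.P) (((FP95.Nice.const _).mul hf).int p.P),
      integral_const_mul, integral_const_mul] at k3
    have k4 : ∫ τ, κ * H / 2 * Z.indicator (fun _ => (1 : ℝ)) τ ∂p.P ≤
        ∫ τ, f τ * Z.indicator (fun _ => (1 : ℝ)) τ ∂p.P := by
      refine integral_mono (((FP95.Nice.const _).mul (FP95.Nice.ind hZ)).int p.P) (nZ.int p.P) fun τ => ?_
      by_cases h3 : τ ∈ Z
      · simp only [Set.indicator_of_mem h3, mul_one]
        exact h3
      · simp only [Set.indicator_of_notMem h3, mul_zero, le_refl]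
    rw [int_ind p hZ] at k4
    refine ⟨Z, hZ, hZo, ?_, ?_⟩
    · have h1 := not_le.1 hc
      have h2 : κ * H / 2 * ∫ τ, f τ ∂p.P ≤ κ * H / 2 * (H * α) :=
        mul_le_mul_of_nonneg_left (k2.trans (mul_le_mul_of_nonneg_left hq hH.le)) (by positivity)
      have h3 := mul_le_mul_of_nonneg_left k1 hH.le
      refine le_of_mul_le_mul_left ?_ (mul_pos hH hH)
      nlinarith
    · refine le_of_mul_le_mul_left ?_ hH
      nlinarith

end Pool.Agent.Lib.SX21
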