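import Pool.Agent.Lib.SX21.Blue

/-! The bound for a system from the last round, the choice of parameters and the rate. -/

namespace Pool.Agent.Lib.SX21

open MeasureTheory ProbabilityTheory Filter Topology Finset Pool.Agent.Lib.FP95
open Pool.Agent.Lib.MP_eba68f_pr hiding Nice
open Pool.Agent.Lib.SL94 (SW T)
open scoped NNReal ENNReal

theorem bCORE (hT : St_TOP) (hA : St_ARITH) (hR : St_RATE) : SBW.St_CORE (1 / 2) := by
  intro q d K L hq hq1 hd hK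
  obtain ⟨C₀, h2, hC₀⟩ : ∃ C₀ : ℕ, 2 ≤ C₀ ∧ 4 * K + d ≤ d * C₀ := by
    obtain ⟨n, hn⟩ := exists_nat_ge ((4 * K + d) / d)
    refine ⟨n + 2, by omega, ?_⟩
    rw [div_le_iff₀ hd] at hn
    push_cast
    nlinarith
  have hc0 : 0 < (q / 2560) ^ 2 := by positivity
  have hc1 : (q / 2560) ^ 2 ≤ 1 := pow_le_one₀ (by positivity) (by linarith)
  obtain ⟨C, hC⟩ := hA _ (6 * C₀ + 24) (12 * C₀ + 66) hc0 hc1
  obtain ⟨c, hc, N, hN⟩ :=
    hR (q ^ 2 * ((q / 2560) ^ 2) ^ 3 * d ^ 2 / 1024) (C + L) (by positivity)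
  refine ⟨c, hc, N, fun p hr hpq hpd hpL hlin x hx hm => ?_⟩
  rw [← Real.sqrt_eq_rpow]
  refine hN _ _ hx fun k hk hk2 => ?_
  obtain ⟨M, ρ₀, a1, a2, a3, a4⟩ := hC k hk
  subst hpq hpd hpL
  have hdh : p.d ≤ (p.hi : ℝ) := sub_le_self _ p.lo.coe_nonneg
  have hC₀' : 4 * K + p.d ≤ p.hi * C₀ :=
    hC₀.trans (mul_le_mul_of_nonneg_right hdh (Nat.cast_nonneg _))
  refine hT p hr K C₀ ρ₀ M k hK hlin h2 hC₀' hk a1 a2 a3 x (p.le_nn.2 (le_trans ?_ hk2)) hm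
  have h1 : p.L ≤ 2 ^ (p.L * k ^ 2) :=
    (Nat.lt_two_pow_self).le.trans (Nat.pow_le_pow_right (by norm_num)
      (Nat.le_mul_of_pos_right _ (by positivity)))
  have h3 : p.L * (((12 * C₀ + 66) * M) ^ (6 * k + 1) * ρ₀) ≤ 2 ^ ((C + p.L) * k ^ 2) := by
    rw [add_mul C, pow_add 2, mul_comm (2 ^ (C * k ^ 2))]
    exact Nat.mul_le_mul h1 a4
  exact_mod_cast h3

end Pool.Agent.Lib.SX21
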