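import Pool.Agent.Lib.SX21.Blue0

/-! Row IND: independence of the two sides. -/

namespace Pool.Agent.Lib.SX21

open MeasureTheory Pool.Agent.Lib.FP95

theorem bIND (hSPL : St_SPL) : St_IND := by
  intro p B X Z hX hZ h1 h2
  have h := (hSPL p B).measure_preimage (hX.inter hZ).nullMeasurableSet
  have a1 : ∀ (σ τ : Cfg) e, e ∉ Bᶜ → sp B σ τ e = σ e := fun σ τ e he => if_pos (not_not.1 he)
  have a2 : ∀ (σ τ : Cfg) e, e ∉ B → sp B σ τ e = τ e := fun σ τ e he => if_neg he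
  have e : (fun q : Cfg × Cfg => sp B q.1 q.2) ⁻¹' (X ∩ Z) = X ×ˢ Z := by
    ext q
    exact ⟨fun k => ⟨h1 _ _ (a1 _ _) k.1, h2 _ _ (a2 _ _) k.2⟩,
      fun k => ⟨h1 _ _ (fun e he => (a1 _ _ e he).symm) k.1,
        h2 _ _ (fun e he => (a2 _ _ e he).symm) k.2⟩⟩
  rw [e, Measure.prod_prod] at h
  unfold Par.pr Measure.real
  rw [← h, ENNReal.toReal_mul]

end Pool.Agent.Lib.SX21
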