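import Pool.Agent.Lib.SX21.Blue

/-! Row ONE: one good edge in the first shell. -/

namespace Pool.Agent.Lib.SX21

open MeasureTheory ProbabilityTheory Filter Topology Finset Pool.Agent.Lib.FP95
open Pool.Agent.Lib.MP_eba68f_pr hiding Nice
open Pool.Agent.Lib.SL94 (SW T)
open Pool.Agent.Lib.SB97 (Qt Pth Dt)
open Pool.Agent.Lib.SBW (Sw Gain Lin Adm Light Rare Sh)
open scoped NNReal ENNReal

theorem bONE (hK : St_KIT) (hD : SB97.St_DT) (hS : St_SUMC) (hP : St_PICK) (hG : St_GOOD) :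
    St_ONE := by
  classical
  intro p hr B₁ B₂ Γ Z u v a b π₁ σ₁ π₂ σ₂ ε θ t H w N hA s1 s2 hε p1 p2 c1 c2 hw hZ hs hE ha hb
    r1 r2 hW hC
  obtain ⟨-, -, -, -, -, -, k7, k8, k9, k10, -⟩ := hK
  obtain ⟨d1, d2⟩ := hD u (p.L * (2 * w))
  have hL := p.one_le
  have hw' : (2 : ℝ) ≤ w := by exact_mod_cast hw
  set I := (Dt u (p.L * (2 * w))).filter fun i => Sh p u w 1 i.1 ∧ Sh p u w 1 i.2 with hI
  have hin : ∀ y, Sh p u w 1 y → n1 (y - u) ≤ ((p.L * (2 * w) : ℕ) : ℝ) := fun y hy => by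
    have := p.nn_le.1 hy.2
    push_cast at this ⊢
    linarith
  have mI : ∀ y z, (y, z) ∈ I ↔ G.Adj y z ∧ Sh p u w 1 y ∧ Sh p u w 1 z := fun y z => by
    rw [hI, mem_filter, d1]
    exact ⟨fun h => ⟨h.1.1, h.2⟩, fun h => ⟨⟨h.1, hin _ h.2.1, hin _ h.2.2⟩, h.2⟩⟩
  have hLw : (1 : ℝ) ≤ p.L * w := by nlinarith
  have e5 : 2 * ((p.L * (2 * w) : ℕ) : ℝ) + 1 ≤ 5 * ((p.L : ℝ) * w) := by
    push_cast
    linarith
  have e0 : (0 : ℝ) ≤ ((p.L * (2 * w) : ℕ) : ℝ) := Nat.cast_nonneg _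
  have e6 : (2 * ((p.L * (2 * w) : ℕ) : ℝ) + 1) ^ 2 ≤ (5 * ((p.L : ℝ) * w)) ^ 2 := by gcongr
  have cI : (I.card : ℝ) ≤ 100 * ((p.L : ℝ) * w) ^ 2 := by
    have : (I.card : ℝ) ≤ (Dt u (p.L * (2 * w))).card := by exact_mod_cast card_filter_le _ _
    linarith
  have m1 := hS p B₁ Γ Z u v a π₁ σ₁ ε θ t H w I hA s1 hε p1 c1 hw cI hZ (fun i hi => by
    obtain ⟨j1, j2, j3⟩ := (mI i.1 i.2).1 hi
    obtain ⟨l1, -, l3⟩ := hE _ _ j1 j2 j3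
    exact ⟨j1, l1, l3, ha _ j2⟩) r1
  have m2 := hS p B₂ Γ Z v u b π₂ σ₂ ε θ t H w I hA s2 hε p2 c2 hw cI hZ (fun i hi => by
    obtain ⟨j1, j2, j3⟩ := (mI i.1 i.2).1 hi
    obtain ⟨-, l2, l3⟩ := hE _ _ j1 j2 j3
    exact ⟨j1, l2, l3, hb _ j2⟩) (k10 u v t H ▸ r2)
  rw [← k9 _ u v t H] at m2
  have k2 : p.pr (⋃ y ∈ (FP95.ball ((p.L * (2 * w) : ℕ) : ℝ)).image (· + u),
      Light p.L p.hi y (w - 1)) ≤ ε / 4 := by
    refine (p.pr_biUnion_le _ _).trans ?_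
    refine (sum_le_card_nsmul _ _ ((1 / 2 : ℝ) ^ (w - 1) / (p.L : ℝ) ^ 2)
      fun y _ => hr y _ (by omega)).trans ?_
    rw [nsmul_eq_mul]
    have c1 : (((FP95.ball ((p.L * (2 * w) : ℕ) : ℝ)).image (· + u)).card : ℝ) ≤
        (FP95.ball ((p.L * (2 * w) : ℕ) : ℝ)).card := by exact_mod_cast card_image_le
    have c4 := mul_le_mul_of_nonneg_right (c1.trans ((card_ball e0).trans e6))
      (by positivity : (0 : ℝ) ≤ (1 / 2) ^ (w - 1) / (p.L : ℝ) ^ 2)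
    have c5 : (5 * ((p.L : ℝ) * w)) ^ 2 * ((1 / 2) ^ (w - 1) / (p.L : ℝ) ^ 2) =
        25 * (w : ℝ) ^ 2 * (1 / 2) ^ (w - 1) := by
      field_simp
      norm_num
    linarith
  obtain ⟨τ, t1, t2, t3⟩ := hP p.toPar (Wn (p.d / 2) u v t H ∩ Z) _ I
    (EvX p.hi (p.d / 2) B₁ Γ u v a) (EvX p.hi (p.d / 2) B₂ Γ v u b) ε (w - 1) hε (by omega)
    ((k8 _ _ _ _ _).inter hZ) (k7 _ _ _ _ _ _ _) (k7 _ _ _ _ _ _ _) hW k2 (by linarith)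
  obtain ⟨m, g, g1, g2, g3, g4⟩ := hC τ
  obtain ⟨j, hj, q1, q2, q3⟩ := hG p.L p.hi τ I _ _ (w - 1) m g g1 g3
    (fun h => t2 (Set.mem_biUnion (show g 0 ∈ (((FP95.ball ((p.L * (2 * w) : ℕ) : ℝ)).image
      (· + u) : Finset V) : Set V) from mem_coe.2 (mem_image.2
        ⟨g 0 - u, mem_ball (hin _ (g2 0 (Nat.zero_le _))), sub_add_cancel _ _⟩)) h))
    (fun j hj => ⟨(mI _ _).2 ⟨g1.1 j hj, g2 j hj.le, g2 (j + 1) hj⟩,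
      (mI _ _).2 ⟨(g1.1 j hj).symm, g2 (j + 1) hj, g2 j hj.le⟩⟩) t3
  obtain ⟨o1, o2⟩ := g4 j hj
  refine ⟨τ, g j, g (j + 1), t1.1.2, g1.1 j hj, g2 j hj.le, g2 (j + 1) hj, q1, o1, o2,
    fun h => le_of_not_gt fun h' => q2 ⟨o1, q1, h, h'⟩,
    fun h => le_of_not_gt fun h' => q3 ⟨?_, ?_, h, h'⟩⟩
  · show T τ v (g (j + 1)) + τ s(g (j + 1), g j) + T τ (g j) u ≤ T τ v u + p.d / 2
    rw [SL94.T_comm τ v (g (j + 1)), SL94.T_comm τ (g j) u, SL94.T_comm τ v u, Sym2.eq_swap]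
    linarith
  · show p.hi < τ s(g (j + 1), g j)
    rw [Sym2.eq_swap]
    exact q1

end Pool.Agent.Lib.SX21
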