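import Pool.Agent.Lib.SX21.Blue0

/-! Row PICK: one configuration with few marks. -/

namespace Pool.Agent.Lib.SX21

open MeasureTheory ProbabilityTheory Filter Topology Finset Pool.Agent.Lib.FP95
open Pool.Agent.Lib.MP_eba68f_pr hiding Nice
open scoped NNReal ENNReal

namespace PICK

/-- number of marks, counted on the event `E` only -/
noncomputable def fE (Ev : V × V → Set Cfg) (I : Finset (V × V)) (E : Set Cfg) (τ : Cfg) : ℝ :=
  ∑ i ∈ I, (Ev i ∩ E).indicator (fun _ => (1 : ℝ)) τ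

lemma fE_eq (Ev : V × V → Set Cfg) (I : Finset (V × V)) {E : Set Cfg} {τ : Cfg} (h : τ ∈ E) :
    fE Ev I E τ = cn Ev I τ := by
  classical
  unfold cn fE
  rw [card_filter]
  push_cast
  refine sum_congr rfl fun i _ => ?_
  by_cases h' : τ ∈ Ev i <;> simp [h, h']

lemma fE_nonneg (Ev : V × V → Set Cfg) (I : Finset (V × V)) (E : Set Cfg) (τ : Cfg) :
    0 ≤ fE Ev I E τ :=
  sum_nonneg fun _ _ => Set.indicator_nonneg (fun _ _ => zero_le_one) τ

lemma fE_nice {Ev : V × V → Set Cfg} (I : Finset (V × V)) {E : Set Cfg} (hE : MeasurableSet E)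
    (h : ∀ i, MeasurableSet (Ev i)) : Nice (fE Ev I E) :=
  FP95.Nice.sum I fun i _ => FP95.Nice.ind ((h i).inter hE)

lemma fE_int (p : Par) {Ev : V × V → Set Cfg} (I : Finset (V × V)) {E : Set Cfg}
    (hE : MeasurableSet E) (h : ∀ i, MeasurableSet (Ev i)) :
    ∫ τ, fE Ev I E τ ∂p.P = ∑ i ∈ I, p.pr (Ev i ∩ E) := by
  unfold fE
  rw [integral_finsetSum _ fun i _ => (FP95.Nice.ind ((h i).inter hE)).int p.P]
  exact sum_congr rfl fun i _ => p.int_ind ((h i).inter hE)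

end PICK

open PICK in
theorem bPICK : St_PICK := by
  intro p E Bad I Ev Ev' ε n hε hn hE h h' h1 h2 h3
  by_contra hc
  have n0 : (0 : ℝ) < n := by exact_mod_cast hn
  have n1' := fE_nice I hE h
  have n2' := fE_nice I hE h'
  have key := mul_meas_ge_le_integral_of_nonneg (μ := p.P)
    (f := fun τ => fE Ev I E τ + fE Ev' I E τ)
    (ae_of_all _ fun τ => add_nonneg (fE_nonneg Ev I E τ) (fE_nonneg Ev' I E τ))
    ((n1'.add n2').int p.P) ((n : ℝ) / 4)
  rw [integral_add (n1'.int p.P) (n2'.int p.P), fE_int p I hE h, fE_int p I hE h'] at key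
  have sub : E ⊆ Bad ∪ {τ | (n : ℝ) / 4 ≤ fE Ev I E τ + fE Ev' I E τ} := by
    intro τ hτ
    by_cases hb : τ ∈ Bad
    · exact Or.inl hb
    · refine Or.inr ?_
      have h4 : n ≤ 4 * (cn Ev I τ + cn Ev' I τ) := le_of_not_ge fun k => hc ⟨τ, hτ, hb, k⟩
      have h5 : (n : ℝ) ≤ 4 * ((cn Ev I τ : ℝ) + cn Ev' I τ) := by exact_mod_cast h4
      change (n : ℝ) / 4 ≤ fE Ev I E τ + fE Ev' I E τ
      rw [fE_eq Ev I hτ, fE_eq Ev' I hτ]
      linarith
  have h6 := (p.pr_mono sub).trans (p.pr_union_le _ _)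
  have h7 : p.pr {τ | (n : ℝ) / 4 ≤ fE Ev I E τ + fE Ev' I E τ} ≤ ε / 8 := by
    refine le_of_mul_le_mul_left ?_ (show (0 : ℝ) < n / 4 by positivity)
    exact (key.trans h3).trans (le_of_eq (by ring))
  linarith

end Pool.Agent.Lib.SX21
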