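import Pool.Agent.Lib.SX21.Blue
import Pool.Agent.Lib.SB97.B_SEG

/-! Row SEG2: the piece of a nearly optimal path after its last visit to the inner ball. -/

namespace Pool.Agent.Lib.SX21

open Finset SimpleGraph Pool.Agent.Lib.FP95
open Pool.Agent.Lib.MP_eba68f_pr hiding Nice
open Pool.Agent.Lib.SL94 (SW T exists_lt)

theorem bSEG2 (hKIT : St_KIT) : St_SEG2 := by
  intro p τ B Γ u v w s hw hs hB hv
  classical
  obtain ⟨q, hp, hq⟩ := exists_lt (τ := τ) (u := u) (v := v) (lt_add_of_pos_right _ hs)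
  have hL : (2 : ℝ) ≤ p.L := by exact_mod_cast p.L_ge
  obtain ⟨A, hA⟩ : ∃ A : ℝ, A = p.L * (w : ℝ) := ⟨_, rfl⟩
  obtain ⟨D, hD⟩ : ∃ D : ℝ, D = p.L * ((w - 1 : ℕ) : ℝ) := ⟨_, rfl⟩
  have A0 : 0 ≤ A := by rw [hA]; positivity
  have D0 : 0 ≤ D := by rw [hD]; positivity
  have e : (p.L : ℝ) * ((2 * w : ℕ) : ℝ) = A + D + p.L := by
    rw [hA, hD, Nat.cast_sub hw]; push_cast; ring
  rw [p.le_nn, e] at hv
  have z : ∀ y : V, n1 (y - y) = 0 := fun y => by simp [n1]
  have h0 : n1 (q.getVert 0 - u) ≤ A := by rw [Walk.getVert_zero, z]; exact A0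
  set t := Nat.findGreatest (fun j => n1 (q.getVert j - u) ≤ A) q.length with ht
  have t1 : t ≤ q.length := Nat.findGreatest_le _
  have t2 : n1 (q.getVert t - u) ≤ A :=
    Nat.findGreatest_spec (P := fun j => n1 (q.getVert j - u) ≤ A) (Nat.zero_le _) h0
  have t3 : ∀ j, t < j → j ≤ q.length → A < n1 (q.getVert j - u) := fun j h1 h2 =>
    not_le.1 (Nat.findGreatest_is_greatest (P := fun j => n1 (q.getVert j - u) ≤ A) h1 h2)
  have t4 : t + 1 ≤ q.length := by
    rcases t1.lt_or_eq with h | h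
    · exact h
    · rw [h, Walk.getVert_length] at t2
      linarith
  have t5 : n1 (q.getVert (t + 1) - u) ≤ A + 1 := by
    have := SB97.SEG.n1_le u q t 1 t4
    push_cast at this
    linarith
  have ex : ∃ j, t + 1 + j ≤ q.length ∧ D ≤ n1 (q.getVert (t + 1 + j) - q.getVert (t + 1)) := by
    obtain ⟨j, hj⟩ := Nat.exists_eq_add_of_le t4
    refine ⟨j, hj.ge, ?_⟩
    rw [← hj, Walk.getVert_length]
    linarith [n1_tri u (q.getVert (t + 1)) v]
  obtain ⟨m1, m2⟩ := Nat.find_spec ex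
  have m3 : ∀ j, j ≤ Nat.find ex →
      n1 (q.getVert (t + 1 + j) - q.getVert (t + 1)) ≤ D + 1 := by
    intro j hj
    rcases j with _ | j
    · rw [add_zero, z]; linarith
    · have h1 := Nat.find_min ex (show j < Nat.find ex by omega)
      have h2 := not_le.1 fun h => h1 ⟨by omega, h⟩
      have h3 := SB97.SEG.n1_le (q.getVert (t + 1)) q (t + 1 + j) 1 (by omega)
      push_cast at h3
      rw [← add_assoc]
      linarith
  refine ⟨Nat.find ex, fun j => q.getVert (t + 1 + j), ⟨fun j hj => ?_, fun a b ha hb h => ?_⟩,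
    fun j hj => ⟨?_, ?_⟩, hD ▸ m2, fun j hj => ?_⟩
  · exact q.adj_getVert_succ (i := t + 1 + j) (by omega)
  · have := hp.getVert_injOn (show t + 1 + a ≤ q.length by omega)
      (show t + 1 + b ≤ q.length by omega) h
    omega
  · rw [p.lt_nn, one_mul, ← hA]
    exact t3 _ (by omega) (by omega)
  · rw [p.nn_le, show (1 + 1) * w = 2 * w from rfl, e]
    linarith [n1_tri u (q.getVert (t + 1)) (q.getVert (t + 1 + j)), m3 j hj]
  · have a1 := SL94.SEG.T_le_sum τ q (Nat.zero_le (t + 1 + j)) (by omega)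
    have a2 := SL94.SEG.T_le_sum τ q (a := t + 1 + j + 1) (b := q.length) (by omega) le_rfl
    have a3 := SL94.SEG.T_le_sum (mk B Γ τ) q (a := t + 1 + j + 1) (b := q.length) (by omega) le_rfl
    have a6 : ∑ k ∈ Ico (t + 1 + j + 1) q.length,
        (mk B Γ τ s(q.getVert k, q.getVert (k + 1)) : ℝ) =
        ∑ k ∈ Ico (t + 1 + j + 1) q.length, (τ s(q.getVert k, q.getVert (k + 1)) : ℝ) := by
      refine sum_congr rfl fun k hk => ?_
      rw [mem_Ico] at hk
      rw [hKIT.2.2.1 B Γ τ _ fun h => ?_]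
      have h1 := hB h (q.getVert k) (Sym2.mem_mk_left _ _)
      have h2 := t3 k (by omega) hk.2.le
      rw [← hA] at h1
      linarith
    rw [a6, Walk.getVert_length] at a3
    rw [Walk.getVert_zero] at a1
    rw [Walk.getVert_length] at a2
    have a4 := sum_Ico_succ_top (Nat.zero_le (t + 1 + j))
      (fun j => (τ s(q.getVert j, q.getVert (j + 1)) : ℝ))
    have a5 := sum_Ico_consecutive (fun j => (τ s(q.getVert j, q.getVert (j + 1)) : ℝ))
      (Nat.zero_le (t + 1 + j + 1)) (show t + 1 + j + 1 ≤ q.length by omega)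
    rw [SL94.SEG.SW_eq, range_eq_Ico] at hq
    constructor
    · show T τ u (q.getVert (t + 1 + j)) + τ s(q.getVert (t + 1 + j), q.getVert (t + 1 + j + 1)) +
        T τ (q.getVert (t + 1 + j + 1)) v ≤ T τ u v + s
      linarith
    · show T τ u (q.getVert (t + 1 + j)) + τ s(q.getVert (t + 1 + j), q.getVert (t + 1 + j + 1)) +
        T (mk B Γ τ) (q.getVert (t + 1 + j + 1)) v ≤ T τ u v + s
      linarith

end Pool.Agent.Lib.SX21
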