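import Pool.Agent.Lib.SX21.Blue0
import Pool.Agent.Lib.SL94.B_MART

/-! Row SUM: the martingale bound for the replaced growth, with no condition on the law. -/

namespace Pool.Agent.Lib.SX21

open MeasureTheory ProbabilityTheory Filter Topology Function Finset Pool.Agent.Lib.FP95
open Pool.Agent.Lib.MP_eba68f_pr hiding Nice
open Pool.Agent.Lib.SL94 (SW T T_meas T_tri T_adj T_mono T_le_SW exists_lt SW_cons SW_nil)
open Pool.Agent.Lib.SL94.MART (A A_meas A_inv B_inv Inv int_indep)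
open scoped NNReal ENNReal

namespace SUM

/-- the centred indicator of a light weight -/
noncomputable def et (p : Par) (lo t : ℝ≥0) : ℝ :=
  p.F.real (Set.Iic lo) - (Set.Iic lo).indicator (fun _ => 1) t

/-- a measurable change of weights, positive, acting edge by edge -/
structure Good (m : Cfg → Cfg) : Prop where
  meas : Measurable m
  pos : ∀ τ e, 0 < m τ e
  upd : ∀ τ e t e', e' ≠ e → m (update τ e t) e' = m τ e'

variable (p : Par) (lo : ℝ≥0)

lemma et_meas : Measurable (et p lo) :=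
  measurable_const.sub (measurable_const.indicator measurableSet_Iic)

lemma et_lo {t : ℝ≥0} (h : t ≤ lo) : et p lo t = p.F.real (Set.Iic lo) - 1 := by simp [et, h]
lemma et_hi {t : ℝ≥0} (h : lo < t) : et p lo t = p.F.real (Set.Iic lo) := by simp [et, h]

lemma et_abs (t : ℝ≥0) : |et p lo t| ≤ 1 := by
  have h0 : 0 ≤ p.F.real (Set.Iic lo) := measureReal_nonneg
  have h1 : p.F.real (Set.Iic lo) ≤ 1 := measureReal_le_one
  rcases le_or_gt t lo with h | h
  · rw [et_lo p lo h, abs_le]; constructor <;> linarith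
  · rw [et_hi p lo h, abs_le]; constructor <;> linarith

lemma et_nice (e : Sym2 V) : Nice fun τ : Cfg => et p lo (τ e) :=
  ⟨(et_meas p lo).comp (measurable_pi_apply e), 1, fun _ => et_abs p lo _⟩

lemma et_int : ∫ t, et p lo t ∂p.F = 0 := by
  unfold et
  rw [integral_sub (integrable_const _) ((integrable_const _).indicator measurableSet_Iic),
    integral_indicator_const _ measurableSet_Iic]
  simp

lemma orth (e : Sym2 V) {f : Cfg → ℝ} (hf : Measurable f)
    (hd : ∀ τ t, f (update τ e t) = f τ) : ∫ τ, f τ * et p lo (τ e) ∂p.P = 0 := by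
  rw [int_indep p e hf hd (et_meas p lo), et_int, mul_zero]

lemma fr_pre {m : Cfg → Cfg} (hm : Good m) {e : Sym2 V} {B : Set Cfg} (hB : Inv e B) :
    Fr (m ⁻¹' B) e := fun τ t =>
  ⟨hB _ _ (fun e' he => hm.upd τ e t e' he) (hm.pos _ _) (hm.pos _ _),
    hB _ _ (fun e' he => (hm.upd τ e t e' he).symm) (hm.pos _ _) (hm.pos _ _)⟩

lemma fr_inter {X Z : Set Cfg} {e : Sym2 V} (h1 : Fr X e) (h2 : Fr Z e) : Fr (X ∩ Z) e :=
  fun τ t => and_congr (h1 τ t) (h2 τ t)

lemma fr_ind {X : Set Cfg} {e : Sym2 V} (h : Fr X e) (τ : Cfg) (t : ℝ≥0) :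
    X.indicator (fun _ => (1 : ℝ)) (update τ e t) = X.indicator (fun _ => (1 : ℝ)) τ := by
  by_cases k : τ ∈ X
  · rw [Set.indicator_of_mem k, Set.indicator_of_mem ((h τ t).2 k)]
  · rw [Set.indicator_of_notMem k, Set.indicator_of_notMem fun k' => k ((h τ t).1 k')]

lemma half {e e' : Sym2 V} (hne : e' ≠ e) {X : Set Cfg} (hX : MeasurableSet X) (hI : Fr X e) :
    ∫ τ, X.indicator (fun _ => (1 : ℝ)) τ * et p lo (τ e') * et p lo (τ e) ∂p.P = 0 :=
  orth p lo e ((Nice.ind hX).mul (et_nice p lo e')).1 fun τ t => by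
    rw [fr_ind hI, update_of_ne hne]

variable (m : Cfg → Cfg) (Z : Set Cfg) (o : V) (a : V → ℝ)

/-- the increments -/
noncomputable def xz (y z : V) (τ : Cfg) : ℝ :=
  (m ⁻¹' A o a y z ∩ Z).indicator (fun _ => 1) τ * et p lo (τ s(y, z))

variable {m Z}

lemma xz_nice (hm : Good m) (hZ : MeasurableSet Z) (y z : V) : Nice (xz p lo m Z o a y z) :=
  (Nice.ind ((hm.meas (A_meas o a y z)).inter hZ)).mul (et_nice p lo _)

lemma xz_sq (hm : Good m) (hZ : MeasurableSet Z) (y z : V) :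
    ∫ τ, xz p lo m Z o a y z τ * xz p lo m Z o a y z τ ∂p.P ≤ p.pr (m ⁻¹' A o a y z ∩ Z) := by
  have h1 := (hm.meas (A_meas o a y z)).inter hZ
  rw [← p.int_ind h1]
  refine integral_mono (((xz_nice p lo o a hm hZ y z).mul (xz_nice p lo o a hm hZ y z)).int _)
    ((Nice.ind h1).int _) fun τ => ?_
  unfold xz
  by_cases h : τ ∈ m ⁻¹' A o a y z ∩ Z
  · simp only [Set.indicator_of_mem h, one_mul]
    have := abs_le.1 (et_abs p lo (τ s(y, z)))
    nlinarith
  · simp only [Set.indicator_of_notMem h, zero_mul, le_refl]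

lemma xz_orth (hm : Good m) (hZ : MeasurableSet Z) {y z y' z' : V} (f1 : Fr Z s(y, z))
    (f2 : Fr Z s(y', z')) (hne : ¬(y = y' ∧ z = z')) :
    ∫ τ, xz p lo m Z o a y z τ * xz p lo m Z o a y' z' τ ∂p.P = 0 := by
  by_cases he : s(y, z) = s(y', z')
  · obtain ⟨rfl, rfl⟩ := (Sym2.eq_iff.1 he).resolve_left hne
    refine integral_eq_zero_of_ae (ae_of_all _ fun τ => ?_)
    unfold xz
    by_cases h : τ ∈ m ⁻¹' A o a y z ∩ Z
    · have : τ ∉ m ⁻¹' A o a z y ∩ Z := fun h' => lt_asymm h.1.1 h'.1.1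
      simp only [Set.indicator_of_notMem this, zero_mul, mul_zero, Pi.zero_apply]
    · simp only [Set.indicator_of_notMem h, zero_mul, Pi.zero_apply]
  · let B1 : Set Cfg := A o a y z ∩ A o a y' z' ∩ {τ | T τ o y' ≤ T τ o y}
    let B2 : Set Cfg := A o a y z ∩ A o a y' z' ∩ {τ | T τ o y < T τ o y'}
    have m1 : MeasurableSet (m ⁻¹' B1 ∩ Z) := (hm.meas
      (((A_meas o a y z).inter (A_meas o a y' z')).inter
        (measurableSet_le (T_meas o y') (T_meas o y)))).inter hZ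
    have m2 : MeasurableSet (m ⁻¹' B2 ∩ Z) := (hm.meas
      (((A_meas o a y z).inter (A_meas o a y' z')).inter
        (measurableSet_lt (T_meas o y) (T_meas o y')))).inter hZ
    have i1 : Inv s(y, z) B1 := fun τ τ' h h0 h0' hτ => by
      obtain ⟨k1, k2, k3, k4⟩ := B_inv h h0 h0' hτ.1.1 hτ.1.2 hτ.2
      exact ⟨⟨k1, k2⟩, show T τ' o y' ≤ T τ' o y by rw [k3, k4]; exact hτ.2⟩
    have i2 : Inv s(y', z') B2 := fun τ τ' h h0 h0' hτ => by
      obtain ⟨k1, k2, k3, k4⟩ := B_inv h h0 h0' hτ.1.2 hτ.1.1 (le_of_lt hτ.2)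
      exact ⟨⟨k2, k1⟩, show T τ' o y < T τ' o y' by rw [k3, k4]; exact hτ.2⟩
    have e1 := half p lo (Ne.symm he) m1 (fr_inter (fr_pre hm i1) f1)
    have e2 := half p lo he m2 (fr_inter (fr_pre hm i2) f2)
    have e3 := integral_add ((((Nice.ind m1).mul (et_nice p lo s(y', z'))).mul
      (et_nice p lo s(y, z))).int p.P) ((((Nice.ind m2).mul (et_nice p lo s(y, z))).mul
      (et_nice p lo s(y', z'))).int p.P)
    rw [e1, e2, add_zero] at e3
    rw [← e3]
    refine integral_congr_ae (ae_of_all _ fun τ => ?_)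
    simp only [xz]
    by_cases h1 : τ ∈ m ⁻¹' A o a y z ∩ Z
    · by_cases h2 : τ ∈ m ⁻¹' A o a y' z' ∩ Z
      · rcases le_or_gt (T (m τ) o y') (T (m τ) o y) with h3 | h3
        · have k1 : τ ∈ m ⁻¹' B1 ∩ Z := ⟨⟨⟨h1.1, h2.1⟩, h3⟩, h1.2⟩
          have k2 : τ ∉ m ⁻¹' B2 ∩ Z := fun h => absurd h.1.2 (not_lt.2 h3)
          simp only [Set.indicator_of_mem h1, Set.indicator_of_mem h2, Set.indicator_of_mem k1,
            Set.indicator_of_notMem k2]
          ring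
        · have k1 : τ ∉ m ⁻¹' B1 ∩ Z := fun h => absurd h.1.2 (not_le.2 h3)
          have k2 : τ ∈ m ⁻¹' B2 ∩ Z := ⟨⟨⟨h1.1, h2.1⟩, h3⟩, h1.2⟩
          simp only [Set.indicator_of_mem h1, Set.indicator_of_mem h2, Set.indicator_of_mem k2,
            Set.indicator_of_notMem k1]
          ring
      · have k1 : τ ∉ m ⁻¹' B1 ∩ Z := fun h => h2 ⟨h.1.1.2, h.2⟩
        have k2 : τ ∉ m ⁻¹' B2 ∩ Z := fun h => h2 ⟨h.1.1.2, h.2⟩
        simp only [Set.indicator_of_notMem h2, Set.indicator_of_notMem k1,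
          Set.indicator_of_notMem k2]
        ring
    · have k1 : τ ∉ m ⁻¹' B1 ∩ Z := fun h => h1 ⟨h.1.1.1, h.2⟩
      have k2 : τ ∉ m ⁻¹' B2 ∩ Z := fun h => h1 ⟨h.1.1.1, h.2⟩
      simp only [Set.indicator_of_notMem h1, Set.indicator_of_notMem k1,
        Set.indicator_of_notMem k2]
      ring

lemma psi_mono {τ τ' : Cfg} (h : τ ≤ τ') (x : V) (t H : ℝ) : Psi o x t H τ ≤ Psi o x t H τ' :=
  sub_le_sub_right (max_le_max le_rfl (min_le_min le_rfl (T_mono h o x))) _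

lemma psi_gain {τ τ' : Cfg} {x : V} {t H c : ℝ} (hc : 0 ≤ c) (h : τ ∈ Wn c o x t H)
    (h3 : T τ' o x ≤ T τ o x - c) : Psi o x t H τ' ≤ Psi o x t H τ - c := by
  obtain ⟨h1, h2⟩ := h
  unfold Psi
  rw [min_eq_right h2, max_eq_right (show t - H ≤ T τ o x by linarith)]
  have : max (t - H) (min t (T τ' o x)) ≤ T τ o x - c :=
    max_le (by linarith) ((min_le_right _ _).trans h3)
  linarith

lemma cov (hm : Good m) (hZ : MeasurableSet Z) {hi : ℝ≥0} (hlt : lo < hi) {x y z : V} {t H : ℝ}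
    (nP : Nice (Psi o x t H)) (hadj : G.Adj y z) (f1 : Fr Z s(y, z)) {C : Set Cfg}
    (hC : MeasurableSet C) (hs : ∀ τ ∈ C, τ ∈ m ⁻¹' A o a y z ∩ Z ∧
      T τ o y + τ s(y, z) + T τ z x ≤ T τ o x + ((hi : ℝ) - lo) / 2 ∧ hi < τ s(y, z) ∧
      τ ∈ Wn (((hi : ℝ) - lo) / 2) o x t H) :
    p.F.real (Set.Iic lo) * ((hi : ℝ) - lo) / 2 * p.pr C ≤
      ∫ τ, Psi o x t H τ * xz p lo m Z o a y z τ ∂p.P := by
  have mA := (hm.meas (A_meas o a y z)).inter hZ
  have nlo : Nice fun τ : Cfg => Psi o x t H (update τ s(y, z) lo) :=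
    nP.comp measurable_update_left
  have h0 := orth p lo s(y, z)
    (f := fun τ => Psi o x t H (update τ s(y, z) lo) *
      (m ⁻¹' A o a y z ∩ Z).indicator (fun _ => 1) τ)
    (nlo.mul (Nice.ind mA)).1 fun τ t => by
      rw [fr_ind (fr_inter (fr_pre hm (A_inv o a y z)) f1), update_idem]
  have i1 := ((nlo.mul (Nice.ind mA)).mul (et_nice p lo s(y, z))).int p.P
  have i2 := ((Nice.ind hC).int p.P).const_mul (p.F.real (Set.Iic lo) * ((hi : ℝ) - lo) / 2)
  have e := integral_add i1 i2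
  rw [h0, zero_add, integral_const_mul, p.int_ind hC] at e
  rw [← e]
  refine integral_mono (i1.add i2) ((nP.mul (xz_nice p lo o a hm hZ y z)).int _) fun τ => ?_
  have hq : 0 ≤ p.F.real (Set.Iic lo) := measureReal_nonneg
  have hq1 : p.F.real (Set.Iic lo) ≤ 1 := measureReal_le_one
  have hlo : (lo : ℝ) < hi := hlt
  simp only [xz]
  by_cases hE : τ ∈ C
  · obtain ⟨hA, k1, k2, w⟩ := hs τ hE
    have k2' : (hi : ℝ) < τ s(y, z) := k2
    have hl : lo < τ s(y, z) := hlt.trans k2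
    have hle : update τ s(y, z) lo ≤ τ := update_le_self_iff.2 hl.le
    have k4 := T_adj (update τ s(y, z) lo) hadj
    rw [update_self] at k4
    have k5 : T (update τ s(y, z) lo) o x ≤ T τ o x - ((hi : ℝ) - lo) / 2 := by
      linarith [T_tri (update τ s(y, z) lo) o y x, T_tri (update τ s(y, z) lo) y z x,
        T_mono hle o y, T_mono hle z x]
    have k6 := psi_gain o (by linarith) w k5
    simp only [Set.indicator_of_mem hE, Set.indicator_of_mem hA, et_hi p lo hl]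
    nlinarith
  · rw [Set.indicator_of_notMem hE]
    by_cases hA : τ ∈ m ⁻¹' A o a y z ∩ Z
    · rw [Set.indicator_of_mem hA]
      rcases le_or_gt (τ s(y, z)) lo with hl | hl
      · have := psi_mono o (le_update_self_iff.2 hl : τ ≤ update τ s(y, z) lo) x t H
        rw [et_lo p lo hl]
        nlinarith
      · have := psi_mono o (update_le_self_iff.2 hl.le : update τ s(y, z) lo ≤ τ) x t H
        rw [et_hi p lo hl]
        nlinarith
    · rw [Set.indicator_of_notMem hA]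
      simp

lemma core (hm : Good m) (hZ : MeasurableSet Z) {hi : ℝ≥0} (hlt : lo < hi) {B : Set (Sym2 V)}
    (hoff : ∀ τ τ' : Cfg, (∀ e, e ∉ B → τ e = τ' e) → m τ = m τ') {x : V} {π S t H lam : ℝ}
    (I : Finset (V × V)) (hl : 0 < lam) (nP : Nice (Psi o x t H))
    (hI : ∀ i ∈ I, G.Adj i.1 i.2 ∧ s(i.1, i.2) ∉ B ∧ Fr Z s(i.1, i.2) ∧
      p.pr (m ⁻¹' A o a i.1 i.2 ∩ Z) ≤ π) (hR : Rep p B Z (Psi o x t H) S)
    (C : V × V → Set Cfg) (hC : ∀ i, MeasurableSet (C i))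
    (hs : ∀ i, ∀ τ ∈ C i, τ ∈ m ⁻¹' A o a i.1 i.2 ∩ Z ∧
      T τ o i.1 + τ s(i.1, i.2) + T τ i.2 x ≤ T τ o x + ((hi : ℝ) - lo) / 2 ∧
      hi < τ s(i.1, i.2) ∧ τ ∈ Wn (((hi : ℝ) - lo) / 2) o x t H) :
    p.F.real (Set.Iic lo) * ((hi : ℝ) - lo) / 2 * ∑ i ∈ I, p.pr (C i) ≤
      lam / 2 * S + π / (2 * lam) * I.card := by
  classical
  obtain ⟨g, ng, hg, hrep⟩ := hR
  have nx : ∀ i ∈ I, Nice fun τ => xz p lo m Z o a i.1 i.2 τ :=
    fun i _ => xz_nice p lo o a hm hZ _ _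
  have nX := FP95.Nice.sum I nx
  have hout : Out B Z fun τ => ∑ i ∈ I, xz p lo m Z o a i.1 i.2 τ := by
    refine ⟨fun τ τ' h k k' => sum_congr rfl fun i hi => ?_, fun τ k => sum_eq_zero fun i _ => ?_⟩
    · unfold xz
      rw [h _ (hI i hi).2.1]
      by_cases k1 : m τ ∈ A o a i.1 i.2
      · rw [Set.indicator_of_mem (show τ ∈ m ⁻¹' A o a i.1 i.2 ∩ Z from ⟨k1, k⟩),
          Set.indicator_of_mem (show τ' ∈ m ⁻¹' A o a i.1 i.2 ∩ Z from
            ⟨show m τ' ∈ _ from hoff τ τ' h ▸ k1, k'⟩)]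
      · rw [Set.indicator_of_notMem (show τ ∉ m ⁻¹' A o a i.1 i.2 ∩ Z from fun k2 => k1 k2.1),
          Set.indicator_of_notMem (show τ' ∉ m ⁻¹' A o a i.1 i.2 ∩ Z from
            fun k2 => k1 (by rw [hoff τ τ' h]; exact k2.1))]
    · unfold xz
      rw [Set.indicator_of_notMem (show τ ∉ m ⁻¹' A o a i.1 i.2 ∩ Z from fun k2 => k k2.2),
        zero_mul]
  have e2 : ∫ τ, (∑ i ∈ I, xz p lo m Z o a i.1 i.2 τ) * (∑ i ∈ I, xz p lo m Z o a i.1 i.2 τ)
      ∂p.P ≤ π * I.card := by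
    simp only [sum_mul_sum]
    rw [integral_finsetSum _ fun i hi =>
      (FP95.Nice.sum I fun j hj => (nx i hi).mul (nx j hj)).int _, mul_comm, ← nsmul_eq_mul]
    refine sum_le_card_nsmul _ _ _ fun i hi => ?_
    rw [integral_finsetSum _ fun j hj => ((nx i hi).mul (nx j hj)).int _,
      sum_eq_single_of_mem i hi fun j hj hne => ?_]
    · exact (xz_sq p lo o a hm hZ _ _).trans (hI i hi).2.2.2
    · exact xz_orth p lo o a hm hZ (hI i hi).2.2.1 (hI j hj).2.2.1
        fun k => hne (Prod.ext k.1 k.2).symm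
  have e3 : p.F.real (Set.Iic lo) * ((hi : ℝ) - lo) / 2 * ∑ i ∈ I, p.pr (C i) ≤
      ∫ τ, Psi o x t H τ * ∑ i ∈ I, xz p lo m Z o a i.1 i.2 τ ∂p.P := by
    simp only [mul_sum]
    rw [integral_finsetSum _ fun i hi => (nP.mul (nx i hi)).int _]
    exact sum_le_sum fun i hi =>
      cov p lo o a hm hZ hlt nP (hI i hi).1 (hI i hi).2.2.1 (hC i) (hs i)
  rw [hrep _ nX hout] at e3
  have n2 : Nice fun τ => g τ ^ 2 := by simpa only [sq] using ng.mul ng
  have j1 := (n2.int p.P).const_mul (lam / 2)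
  have j2 := ((nX.mul nX).int p.P).const_mul (1 / (2 * lam))
  have e4 := integral_mono ((ng.mul nX).int p.P) (j1.add j2) fun τ => by
    show g τ * _ ≤ lam / 2 * g τ ^ 2 + 1 / (2 * lam) * (_ * _)
    generalize g τ = u
    generalize ∑ i ∈ I, xz p lo m Z o a i.1 i.2 τ = v
    have : lam / 2 * u ^ 2 + 1 / (2 * lam) * (v * v) - u * v = (lam * u - v) ^ 2 / (2 * lam) := by
      field_simp; ring
    have h2 : 0 ≤ (lam * u - v) ^ 2 / (2 * lam) := by positivity
    linarith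
  simp only [Pi.add_apply] at e4
  rw [integral_add j1 j2, integral_const_mul, integral_const_mul] at e4
  have e5 := mul_le_mul_of_nonneg_left hg (by positivity : 0 ≤ lam / 2)
  have e6 := mul_le_mul_of_nonneg_left e2 (by positivity : 0 ≤ 1 / (2 * lam))
  have e7 : 1 / (2 * lam) * (π * I.card) = π / (2 * lam) * I.card := by ring
  linarith

/-- all weights raised by `1 / (n + 1)` -/
noncomputable def rs (n : ℕ) (τ : Cfg) : Cfg := fun e => τ e + 1 / ((n : ℝ≥0) + 1)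

lemma up_meas (n : ℕ) : Measurable (rs n) :=
  measurable_pi_lambda _ fun e => (measurable_pi_apply e).add_const _

lemma le_up (n : ℕ) (τ : Cfg) : τ ≤ rs n τ := fun _ => le_self_add

lemma up_anti {n k : ℕ} (h : n ≤ k) (τ : Cfg) : rs k τ ≤ rs n τ := fun e => by
  have h1 : (n : ℝ≥0) ≤ k := by exact_mod_cast h
  exact add_le_add le_rfl (one_div_le_one_div_of_le (by positivity) (add_le_add h1 le_rfl))

lemma SW_up (n : ℕ) (τ : Cfg) (l : List (Sym2 V)) :
    SW (rs n τ) l = SW τ l + l.length * (1 / ((n : ℝ) + 1)) := by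
  induction l with
  | nil => simp
  | cons b l ih =>
    rw [SW_cons, SW_cons, ih, List.length_cons]
    simp only [rs]
    push_cast
    ring

lemma ex_up {τ : Cfg} {u v : V} {c : ℝ} (h : T τ u v < c) : ∃ n, T (rs n τ) u v < c := by
  obtain ⟨q, -, hq⟩ := exists_lt h
  have hp : 0 < (c - SW τ q.edges) / ((q.edges.length : ℝ) + 1) :=
    div_pos (by linarith) (by positivity)
  obtain ⟨n, hn⟩ := exists_nat_one_div_lt hp
  refine ⟨n, (T_le_SW _ q).trans_lt ?_⟩
  rw [SW_up]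
  rw [lt_div_iff₀ (by positivity)] at hn
  have : (0 : ℝ) < 1 / ((n : ℝ) + 1) := by positivity
  nlinarith

end SUM

open SUM in
theorem bSUM (hK : St_KIT) : St_SUM := by
  intro p lo hi hlt B Γ Z o x a π S t H lam I hl hH hZ hI hR
  obtain ⟨-, k2, -, k4, -, -, k7, k8, -, -, k11, -⟩ := hK
  set s : ℝ := ((hi : ℝ) - lo) / 2 with hs
  let C : ℕ → V × V → Set Cfg := fun n i => (EvX hi s B Γ o x a i ∩ (Wn s o x t H ∩ Z)) ∩
    {τ | T (rs n (mk B Γ τ)) o i.1 < min (T (mk B Γ τ) o i.2) (a i.1)}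
  have mC : ∀ n i, MeasurableSet (C n i) := fun n i =>
    ((k7 _ _ _ _ _ _ _ _).inter ((k8 _ _ _ _ _).inter hZ)).inter
      (measurableSet_lt ((T_meas o i.1).comp ((up_meas n).comp (k2 B Γ)))
        (((T_meas o i.2).comp (k2 B Γ)).min measurable_const))
  have key : ∀ n, p.F.real (Set.Iic lo) * ((hi : ℝ) - lo) / 2 * ∑ i ∈ I, p.pr (C n i) ≤
      lam / 2 * S + π / (2 * lam) * I.card := fun n => by
    have hm : Good fun τ => rs n (mk B Γ τ) :=
      ⟨(up_meas n).comp (k2 B Γ), fun τ e => lt_of_lt_of_le (by positivity) le_add_self,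
        fun τ e c e' he => by simp only [rs, mk, sp, update_of_ne he]⟩
    refine core p lo o a hm hZ hlt (fun τ τ' h => by rw [k4 B Γ τ τ' h]) I hl
      (k11 o x t H hH).1 (fun i hi => ⟨(hI i hi).1, (hI i hi).2.1, (hI i hi).2.2.1,
        (p.pr_mono fun τ h => ?_).trans (hI i hi).2.2.2⟩) hR (C n) (mC n) fun i τ h => ?_
    · exact ⟨(T_mono (le_up n _) o i.1).trans_lt h.1.2, h.2⟩
    · obtain ⟨⟨h1, h2, h3⟩, h4⟩ := h
      have h5 := lt_min_iff.1 (show T (rs n (mk B Γ τ)) o i.1 < min _ _ from h4)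
      exact ⟨⟨⟨h5.1.trans_le (T_mono (le_up n _) o i.2), h5.2⟩, h3⟩, h1.1, h1.2.1, h2⟩
  have lim : ∀ i, Tendsto (fun n => p.pr (C n i)) atTop
      (𝓝 (p.pr (EvX hi s B Γ o x a i ∩ (Wn s o x t H ∩ Z)))) := fun i => by
    have mono : Monotone fun n => C n i := fun n k h τ hτ =>
      ⟨hτ.1, (T_mono (up_anti h _) o i.1).trans_lt hτ.2⟩
    have un : ⋃ n, C n i = EvX hi s B Γ o x a i ∩ (Wn s o x t H ∩ Z) := by
      refine Set.Subset.antisymm (Set.iUnion_subset fun n => Set.inter_subset_left) fun τ h => ?_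
      obtain ⟨n, hn⟩ := ex_up (lt_min h.1.2.2.1 h.1.2.2.2)
      exact Set.mem_iUnion.2 ⟨n, h, hn⟩
    have := tendsto_measure_iUnion_atTop (μ := p.P) mono
    rw [un] at this
    exact (ENNReal.tendsto_toReal (measure_ne_top _ _)).comp this
  exact le_of_tendsto' ((tendsto_finsetSum I fun i _ => lim i).const_mul _) key

end Pool.Agent.Lib.SX21
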