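import Pool.Agent.Lib.SX21.Blue
import Pool.Agent.Lib.SBW.B_TOP

/-! The last round, fixed levels. -/

namespace Pool.Agent.Lib.SX21

open MeasureTheory ProbabilityTheory Filter Topology Finset Pool.Agent.Lib.FP95
open Pool.Agent.Lib.MP_eba68f_pr hiding Nice
open Pool.Agent.Lib.SL94 (SW T)
open Pool.Agent.Lib.SB97 (Qt Pth Dt)
open Pool.Agent.Lib.SBW (Sw Gain Lin Adm Light Rare Sh)
open scoped NNReal ENNReal

open Pool.Agent.Lib.SBW.TOP in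
theorem bTOP (hI : St_ITER) (hR : SBW.St_RESET) (hV : SB97.St_VAR) (hQ : SB97.St_QUANT) :
    St_TOP := by
  intro p hrare K C₀ ρ₀ M k hK hLin hC hKC hk hρ₀ hM hside x hx hmem
  have hd := p.d_pos
  have hq0 := p.q_pos'
  have hq1 := p.q_le
  have hc0 := c0_pos p
  have hc1 : (p.q / 2560) ^ 2 ≤ 1 := (c0_le_q p).trans (by linarith)
  have hθ0 := lev_pos p (6 * k)
  have hθq : (p.q / 2560) ^ 2 / 4 ^ (6 * k) ≤ p.q := (lev_le p _).trans (by linarith)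
  have hθh : (p.q / 2560) ^ 2 / 4 ^ (6 * k) ≤ 1 / 2 := (lev_le p _).trans (by linarith)
  have hθ1 : (p.q / 2560) ^ 2 / 4 ^ (6 * k) ≤ (p.q / 2560) ^ 2 / 4 ^ k := lev_anti p (by omega)
  have hθ2 : (p.q / 2560) ^ 2 / 4 ^ (6 * k) ≤ (p.q / 2560) ^ 2 / 4 ^ (3 * k) :=
    lev_anti p (by omega)
  have hA := adm p (6 * k)
  have hA1 := adm p k
  have hA2 := adm p (3 * k)
  have e1 : (p.q / 2560) ^ 2 / 4 ^ k = (p.q / 2560) ^ 2 / (2 ^ k) ^ 2 := by rw [four_pow]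
  have e2 : (p.q / 2560) ^ 2 / 4 ^ (3 * k) = (p.q / 2560) ^ 2 / (2 ^ k) ^ 6 := by
    rw [four_pow, ← pow_mul, ← pow_mul]; congr 2; ring
  generalize (p.q / 2560) ^ 2 / 4 ^ (6 * k) = θ at hM hside hθ0 hθq hθh hθ1 hθ2 hA
  generalize (p.q / 2560) ^ 2 / 4 ^ k = θ₁ at hθ1 hA1 e1
  generalize (p.q / 2560) ^ 2 / 4 ^ (3 * k) = θ₂ at hθ2 hA2 e2
  generalize (p.q / 2560) ^ 2 = c₀ at hc0 hc1 e1 e2 ⊢
  have hθle : θ ≤ 1 := by linarith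
  have hpw : ∀ {a b : ℕ}, a ≤ b → θ ^ b ≤ θ ^ a := fun h => pow_le_pow_of_le_one hθ0.le hθle h
  have hM1 : 1 ≤ M := by
    rcases Nat.eq_zero_or_pos M with h | h
    · rw [h, Nat.cast_zero, mul_zero] at hM
      norm_num at hM
    · exact h
  have hG := hI p hrare K θ (2 ^ (6 * k) * p.d) C₀ ρ₀ M (6 * k) hK hLin hC hKC hA hθq hθh
    le_rfl hρ₀ hM hside
  have hρ : ρ₀ ≤ ((12 * C₀ + 66) * M) ^ (6 * k) * ρ₀ :=
    Nat.le_mul_of_pos_left _ (pow_pos (Nat.mul_pos (by omega) hM1) _)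
  have hxe : ((12 * C₀ + 66) * M) ^ (6 * k + 1) * ρ₀ =
      (12 * C₀ + 66) * M * (((12 * C₀ + 66) * M) ^ (6 * k) * ρ₀) := by ring
  rw [hxe] at hx
  generalize ((12 * C₀ + 66) * M) ^ (6 * k) * ρ₀ = ρ at hG hρ hx
  have hρ2 : 2 ≤ ρ := hρ₀.trans hρ
  have hs0 := hside ρ hρ
  have hρr : (2 : ℝ) ≤ ρ := by exact_mod_cast hρ2
  have hCr : (2 : ℝ) ≤ C₀ := by exact_mod_cast hC
  have hMr : (1 : ℝ) ≤ M := by exact_mod_cast hM1
  have hhalf : (0 : ℝ) < (1 / 2) ^ ρ := by positivity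
  have hs : 400 * (2 * (C₀ : ℝ) * M * ρ) ^ 2 * (1 / 2) ^ ρ ≤ θ ^ 56 := by
    refine le_trans ?_ hs0
    have h1 : 2 * (C₀ : ℝ) ≤ ((6 * C₀ + 24 : ℕ) : ℝ) := by
      push_cast
      linarith
    gcongr
  have hCM : (1 : ℝ) ≤ 2 * C₀ * M := one_le_mul_of_one_le_of_one_le (by linarith) hMr
  have hbig : (ρ : ℝ) ≤ 2 * C₀ * M * ρ := le_mul_of_one_le_left (by linarith) hCM
  have hsq : (ρ : ℝ) ^ 2 ≤ (2 * C₀ * M * ρ) ^ 2 := pow_le_pow_left₀ (by linarith) hbig 2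
  have hs2 : 400 * (ρ : ℝ) ^ 2 * (1 / 2) ^ ρ ≤ θ ^ 56 :=
    (mul_le_mul_of_nonneg_right (by linarith) hhalf.le).trans hs
  have hs3 : (1 / 2 : ℝ) ^ ρ ≤ θ ^ 56 :=
    (le_mul_of_one_le_left hhalf.le (one_le_mul_of_one_le_of_one_le (by norm_num)
      (one_le_pow₀ (by linarith)))).trans hs2
  have hLρ : ρ ≤ C₀ * ρ := Nat.le_mul_of_pos_left _ (by omega)
  have hwe : 2 * C₀ * ρ = 2 * (C₀ * ρ) := by ring
  have hy : (2 : ℝ) ≤ 2 ^ k := by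
    simpa using pow_le_pow_right₀ (by norm_num : (1 : ℝ) ≤ 2) hk
  have e3 : (2 : ℝ) ^ (3 * k) = (2 ^ k) ^ 3 := by rw [← pow_mul, mul_comm]
  have e6 : (2 : ℝ) ^ (6 * k) = (2 ^ k) ^ 6 := by rw [← pow_mul, mul_comm]
  rw [e3] at hA2
  rw [e6] at hG
  rw [four_pow k]
  generalize (2 : ℝ) ^ k = y at hy hA1 hA2 hG e1 e2 ⊢
  have hy0 : 0 < y := by linarith
  have hy6 : 2 ≤ y ^ 6 := hy.trans (le_self_pow₀ (by linarith) (by norm_num))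
  have hg0 : 0 ≤ (y ^ 6 - 1) * p.d / 2 := div_nonneg (mul_nonneg (by linarith) hd.le) (by norm_num)
  have h2 : θ ^ 2 ≤ 1 / 2 * θ₁ := by
    rw [pow_two]
    exact mul_le_mul hθh hθ1 hθ0.le (by norm_num)
  have h3 : θ ^ 3 ≤ 1 / 2 * θ₁ * θ₂ := by
    rw [pow_succ]
    exact mul_le_mul h2 hθ2 hθ0.le (by linarith)
  obtain ⟨t, ht⟩ := hQ p.toPar 0 x (1 / 2) (by norm_num) (by norm_num)
  have hmain := hR p hrare K _ (θ ^ 7) (θ ^ 27) 0 ρ M (2 * C₀ * ρ) (C₀ * ρ) hK hLin hg0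
    (by positivity) hG 0 x (1 / 2) t θ₁ θ₂ _ _ (by norm_num) le_rfl ht hA1 hA2
    ((hpw (by omega)).trans h3) hM1
    (by omega) hρ2
    (by
      have h1 : (1 / 2 : ℝ) ^ (2 * C₀ * ρ - 1) ≤ (1 / 2) ^ ρ :=
        pow_le_pow_of_le_one (by norm_num) (by norm_num) (by omega)
      have h4 : θ ^ 56 ≤ θ ^ 1 := hpw (by omega)
      rw [pow_one] at h4
      calc 200 * ((M : ℝ) * ((2 * C₀ * ρ : ℕ) : ℝ)) ^ 2 * (1 / 2) ^ (2 * C₀ * ρ - 1)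
          ≤ 400 * ((M : ℝ) * ((2 * C₀ * ρ : ℕ) : ℝ)) ^ 2 * (1 / 2) ^ ρ := by
            gcongr
            norm_num
        _ = 400 * (2 * (C₀ : ℝ) * M * ρ) ^ 2 * (1 / 2) ^ ρ := by push_cast; ring
        _ ≤ 1 / 2 := hs.trans (h4.trans hθh))
    (by
      have h1 : (1 / 2 : ℝ) ^ (ρ - 1) = 2 * (1 / 2) ^ ρ := by
        obtain ⟨r, rfl⟩ : ∃ r, ρ = r + 1 := ⟨ρ - 1, by omega⟩
        rw [Nat.add_sub_cancel, pow_succ]; ring
      rw [h1]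
      calc 200 * (ρ : ℝ) ^ 2 * (2 * (1 / 2) ^ ρ) = 400 * (ρ : ℝ) ^ 2 * (1 / 2) ^ ρ := by ring
        _ ≤ θ ^ 2 := hs2.trans (hpw (by omega))
        _ ≤ _ := h2)
    (by
      have h1 : (4 * K + p.d) * ρ ≤ p.hi * C₀ * ρ :=
        mul_le_mul_of_nonneg_right hKC (by linarith)
      have h4 : p.d ≤ p.d * ρ := le_mul_of_one_le_right hd.le (by linarith)
      push_cast
      linarith)
    hwe.ge
    (by
      have h1 : (1 / 2 : ℝ) ^ (C₀ * ρ) ≤ (1 / 2) ^ ρ :=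
        pow_le_pow_of_le_one (by norm_num) (by norm_num) hLρ
      have h4 : θ ^ 56 ≤ θ ^ 28 := hpw (by omega)
      rw [pow_zero, mul_one]
      have h5 : θ ^ 28 ≤ θ ^ 27 * (1 / 2) := by
        rw [pow_succ]
        exact mul_le_mul_of_nonneg_left hθh (by positivity)
      linarith)
    (by
      have h4 : θ ^ 107 ≤ θ ^ 41 := hpw (by omega)
      rw [pow_zero, mul_one]
      calc (32 : ℝ) ≤ θ ^ 107 * M := hM
        _ ≤ θ ^ 41 * M := by gcongr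
        _ = (θ ^ 2 * θ ^ 2 * θ ^ 3) ^ 2 * M * θ ^ 27 := by ring
        _ ≤ _ := by
          have h5 : 0 ≤ 1 / 2 * θ₁ := le_trans (by positivity) h2
          gcongr)
    (by
      rw [sub_zero]
      refine le_trans ?_ hx
      have h1 : (M + 1) * (2 * C₀ * ρ) + 2 * ρ ≤ (12 * C₀ + 66) * M * ρ := by
        obtain ⟨m, rfl⟩ : ∃ m, M = m + 1 := ⟨M - 1, by omega⟩
        refine Nat.le.intro (k := 10 * (m * C₀ * ρ) + 8 * (C₀ * ρ) + 66 * (m * ρ) + 64 * ρ) ?_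
        ring
      exact_mod_cast h1)
  have hqc : p.q ^ 2 * c₀ ^ 3 ≤ p.q * c₀ ^ 2 := by
    have h1 : p.q * c₀ ≤ 1 := mul_le_one₀ hq1 hc0.le hc1
    calc p.q ^ 2 * c₀ ^ 3 = p.q * c₀ ^ 2 * (p.q * c₀) := by ring
      _ ≤ p.q * c₀ ^ 2 * 1 := by gcongr
      _ = _ := mul_one _
  have hqc1 : p.q * c₀ ^ 2 ≤ 1 := mul_le_one₀ hq1 (by positivity) (pow_le_one₀ hc0.le hc1)
  have hdy : 0 ≤ p.d ^ 2 * y ^ 2 := by positivity
  rcases hmain with h | h | h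
  · have hg : y * p.d / 2 ≤ y * p.d - p.d / 2 := by
      have := mul_le_mul_of_nonneg_right hy hd.le
      linarith
    have hg' : 0 ≤ y * p.d / 2 := by positivity
    have h' : 1 / 2 / 2 ≤ p.pr {τ | T τ 0 x ≤ t - (y * p.d - p.d / 2)} := by
      have e : t - (y * p.d - p.d / 2) = t - y * p.d + p.d / 2 := by ring
      rw [e]
      exact h
    refine le_trans ?_ (hV p.toPar 0 x t _ _ hmem (hg'.trans hg) ht.1 h')
    have h1 : (y * p.d / 2) ^ 2 ≤ (y * p.d - p.d / 2) ^ 2 := pow_le_pow_left₀ hg' hg 2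
    have h4 : p.q ^ 2 * c₀ ^ 3 * (p.d ^ 2 * y ^ 2) ≤ 1 * (p.d ^ 2 * y ^ 2) :=
      mul_le_mul_of_nonneg_right (hqc.trans hqc1) hdy
    linarith
  · refine le_trans ?_ (hV p.toPar 0 x t _ _ hmem (by positivity) ht.1 h)
    have e : p.q * (1 / 2 * θ₁) ^ 2 / 2 * (y ^ 3 * p.d) ^ 2 / 8 =
        p.q * c₀ ^ 2 * (p.d ^ 2 * y ^ 2) / 64 := by
      rw [e1]
      field_simp
      ring
    rw [e]
    have h4 : p.q ^ 2 * c₀ ^ 3 * (p.d ^ 2 * y ^ 2) ≤ p.q * c₀ ^ 2 * (p.d ^ 2 * y ^ 2) :=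
      mul_le_mul_of_nonneg_right hqc hdy
    have h5 : 0 ≤ p.q * c₀ ^ 2 * (p.d ^ 2 * y ^ 2) := by positivity
    linarith
  · refine le_trans ?_ (hV p.toPar 0 x t _ _ hmem hg0 ht.1 h)
    have hg : y ^ 6 * p.d / 4 ≤ (y ^ 6 - 1) * p.d / 2 := by
      have := mul_le_mul_of_nonneg_right hy6 hd.le
      linarith
    have h1 : (y ^ 6 * p.d / 4) ^ 2 ≤ ((y ^ 6 - 1) * p.d / 2) ^ 2 :=
      pow_le_pow_left₀ (by positivity) hg 2
    have hβ : 0 ≤ p.q ^ 2 * (1 / 2 * θ₁) * (1 / 2 * θ₁ * θ₂) / 2 := by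
      have := hA1.1
      have := hA2.1
      positivity
    calc p.q ^ 2 * c₀ ^ 3 * p.d ^ 2 / 1024 * y ^ 2
        = p.q ^ 2 * (1 / 2 * θ₁) * (1 / 2 * θ₁ * θ₂) / 2 * (y ^ 6 * p.d / 4) ^ 2 / 8 := by
          rw [e1, e2]
          field_simp
          ring
      _ ≤ _ := by gcongr

end Pool.Agent.Lib.SX21
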