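import Pool.Agent.Lib.SBW.All
import Pool.Agent.Lib.SX21.B_KIT
import Pool.Agent.Lib.SX21.B_SPL
import Pool.Agent.Lib.SX21.B_COND
import Pool.Agent.Lib.SX21.B_IND
import Pool.Agent.Lib.SX21.B_CASE
import Pool.Agent.Lib.SX21.B_SUM
import Pool.Agent.Lib.SX21.B_PICK
import Pool.Agent.Lib.SX21.B_ARITH
import Pool.Agent.Lib.SX21.B_RATE
import Pool.Agent.Lib.SX21.B_SUMC
import Pool.Agent.Lib.SX21.B_GOOD
import Pool.Agent.Lib.SX21.B_SEG1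
import Pool.Agent.Lib.SX21.B_SEG2
import Pool.Agent.Lib.SX21.B_ONE
import Pool.Agent.Lib.SX21.B_T1
import Pool.Agent.Lib.SX21.B_T2
import Pool.Agent.Lib.SX21.B_SPLIT
import Pool.Agent.Lib.SX21.B_MONO
import Pool.Agent.Lib.SX21.B_CONC
import Pool.Agent.Lib.SX21.B_RES
import Pool.Agent.Lib.SX21.B_STEP
import Pool.Agent.Lib.SX21.B_ITER
import Pool.Agent.Lib.SX21.B_TOP
import Pool.Agent.Lib.SX21.B_CORE

/-! Assembly of the rows, fixed levels. -/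

namespace Pool.Agent.Lib.SX21

theorem st_ONE : St_ONE := bONE bKIT SB97.bDT (bSUMC (bSUM bKIT)) bPICK bGOOD

theorem st_SPLIT : St_SPLIT :=
  bSPLIT SB97.bHAR SBW.st_DICH (bCASE bKIT (bCOND bSPL))
    (bT1 bKIT (bIND bSPL) SB97.bQUANT (bSEG1 bKIT) st_ONE)
    (bT2 bKIT SB97.bQUANT (bSEG2 bKIT) st_ONE)

theorem st_STEP : St_STEP :=
  bSTEP (bMONO SB97.bQUANT) (bCONC SB97.bHAR SBW.st_DICH)
    (bRES SB97.bHAR SBW.st_DICH SBW.bLOC (SB97.bPLANT SB97.bHAR) st_SPLIT)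

theorem st_CORE : SBW.St_CORE (1 / 2) :=
  bCORE (bTOP (bITER st_STEP) SBW.st_RESET SB97.bVAR SB97.bQUANT) bARITH bRATE

theorem st_FIN1 : SBW.St_FIN1 (1 / 2) := SBW.fin_of_core _ st_CORE

end Pool.Agent.Lib.SX21
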