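import Pool.Agent.Lib.SL94.Base

/-! Definitions and general rows for the variance bound with fixed levels. -/

namespace Pool.Agent.Lib.SX21

open MeasureTheory ProbabilityTheory Filter Topology Finset Pool.Agent.Lib.FP95
open Pool.Agent.Lib.MP_eba68f_pr hiding Nice
open Pool.Agent.Lib.SL94 (SW T)
open scoped NNReal ENNReal

open Classical in
/-- the weights of `σ` on `B`, those of `τ` elsewhere -/
noncomputable def sp (B : Set (Sym2 V)) (σ τ : Cfg) : Cfg := fun e => if e ∈ B then σ e else τ e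

/-- the constant `Γ` on `B`, the weights of `τ` elsewhere -/
noncomputable def mk (B : Set (Sym2 V)) (Γ : ℝ≥0) (τ : Cfg) : Cfg := sp B (fun _ => Γ) τ

/-- the function only depends on the weights off `B` -/
def Off (B : Set (Sym2 V)) (Y : Cfg → ℝ) : Prop :=
  ∀ τ τ' : Cfg, (∀ e, e ∉ B → τ e = τ' e) → Y τ = Y τ'

/-- the event only depends on the weights off `B` -/
def OffS (B : Set (Sym2 V)) (Z : Set Cfg) : Prop :=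
  ∀ τ τ' : Cfg, (∀ e, e ∉ B → τ e = τ' e) → τ ∈ Z → τ' ∈ Z

/-- the function vanishes off `Z` and on `Z` only depends on the weights off `B` -/
def Out (B : Set (Sym2 V)) (Z : Set Cfg) (Y : Cfg → ℝ) : Prop :=
  (∀ τ τ' : Cfg, (∀ e, e ∉ B → τ e = τ' e) → τ ∈ Z → τ' ∈ Z → Y τ = Y τ') ∧ ∀ τ, τ ∉ Z → Y τ = 0

/-- against such functions `Ψ` acts as a function of squared norm at most `S` -/
def Rep (p : Par) (B : Set (Sym2 V)) (Z : Set Cfg) (Ψ : Cfg → ℝ) (S : ℝ) : Prop :=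
  ∃ g, Nice g ∧ ∫ τ, g τ ^ 2 ∂p.P ≤ S ∧
    ∀ Y, Nice Y → Out B Z Y → ∫ τ, Ψ τ * Y τ ∂p.P = ∫ τ, g τ * Y τ ∂p.P

/-- the clamped passage time -/
noncomputable def Psi (u v : V) (t H : ℝ) (τ : Cfg) : ℝ := max (t - H) (min t (T τ u v)) - t

/-- the window event -/
def Wn (s : ℝ) (u v : V) (t H : ℝ) : Set Cfg := {τ | t - H + s ≤ T τ u v ∧ T τ u v ≤ t}

/-- a heavy edge on a nearly optimal walk whose tail is reached first and early -/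
def EvX (hi : ℝ≥0) (s : ℝ) (B : Set (Sym2 V)) (Γ : ℝ≥0) (o x : V) (a : V → ℝ) (i : V × V) :
    Set Cfg :=
  {τ | T τ o i.1 + τ s(i.1, i.2) + T τ i.2 x ≤ T τ o x + s ∧ hi < τ s(i.1, i.2) ∧
    T (mk B Γ τ) o i.1 < T (mk B Γ τ) o i.2 ∧ T (mk B Γ τ) o i.1 < a i.1}

/-- the event does not depend on the weight of `e` -/
def Fr (Z : Set Cfg) (e : Sym2 V) : Prop :=
  ∀ (τ : Cfg) (t : ℝ≥0), Function.update τ e t ∈ Z ↔ τ ∈ Z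

open Classical in
/-- number of marked indices -/
noncomputable def cn (Ev : V × V → Set Cfg) (I : Finset (V × V)) (τ : Cfg) : ℕ :=
  (I.filter fun i => τ ∈ Ev i).card

/-- elementary facts on the replaced weights -/
def St_KIT : Prop :=
  (∀ Γ τ, mk ∅ Γ τ = τ) ∧ (∀ B Γ, Measurable (mk B Γ)) ∧
  (∀ B Γ τ e, e ∉ B → mk B Γ τ e = τ e) ∧
  (∀ B Γ (τ τ' : Cfg), (∀ e, e ∉ B → τ e = τ' e) → mk B Γ τ = mk B Γ τ') ∧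
  (∀ B (Γ : ℝ≥0) τ u v, min (T τ u v) Γ ≤ T (mk B Γ τ) u v) ∧
  (∀ (p : Par) B (Γ : ℝ≥0) u v (c : ℝ), c ≤ Γ →
    p.pr {τ | T (mk B Γ τ) u v < c} ≤ p.pr {τ | T τ u v < c}) ∧
  (∀ hi s B Γ o x a i, MeasurableSet (EvX hi s B Γ o x a i)) ∧
  (∀ s u v t H, MeasurableSet (Wn s u v t H)) ∧
  (∀ s u v t H, Wn s u v t H = Wn s v u t H) ∧ (∀ u v t H, Psi u v t H = Psi v u t H) ∧
  (∀ u v t H, 0 ≤ H → Nice (Psi u v t H) ∧ ∀ τ, -H ≤ Psi u v t H τ ∧ Psi u v t H τ ≤ 0) ∧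
  (∀ (p : Par) B Z u v t H σ, 0 ≤ H → MeasurableSet Z → p.pr ({τ | T τ u v < t} ∩ Z) ≤ σ →
    Rep p B Z (Psi u v t H) (H ^ 2 * σ)) ∧
  (∀ B Z e, OffS B Z → e ∈ B → Fr Z e)

/-- splicing two independent copies -/
def St_SPL : Prop := ∀ (p : Par) (B : Set (Sym2 V)),
  MeasurePreserving (fun q : Cfg × Cfg => sp B q.1 q.2) (p.P.prod p.P) p.P

/-- averaging over the weights on `B` -/
def St_COND : Prop := ∀ (p : Par) (B : Set (Sym2 V)) (Ψ : Cfg → ℝ) (H : ℝ), Nice Ψ →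
  (∀ τ, -H ≤ Ψ τ ∧ Ψ τ ≤ 0) → ∃ f, Nice f ∧ (∀ τ, 0 ≤ f τ ∧ f τ ≤ H) ∧ Off B f ∧
    ∀ Y, Nice Y → Off B Y → ∫ τ, Ψ τ * Y τ ∂p.P = -∫ τ, f τ * Y τ ∂p.P

/-- independence of the two sides -/
def St_IND : Prop := ∀ (p : Par) (B : Set (Sym2 V)) (X Z : Set Cfg), MeasurableSet X →
  MeasurableSet Z → OffS Bᶜ X → OffS B Z → p.pr (X ∩ Z) = p.pr X * p.pr Z

/-- one of the two cases occurs -/
def St_CASE : Prop := ∀ (p : Par) (B : Set (Sym2 V)) (u v : V) (α κ t H : ℝ), 0 < H →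
  0 < κ → 0 < α → p.pr {τ | T τ u v < t} ≤ α →
  Rep p B Set.univ (Psi u v t H) (H ^ 2 * (κ * α)) ∨
    ∃ Z, MeasurableSet Z ∧ OffS B Z ∧ κ * α / 2 ≤ p.pr ({τ | T τ u v < t} ∩ Z) ∧
      κ / 2 * p.pr Z ≤ p.pr ({τ | T τ u v < t} ∩ Z)

/-- the martingale bound, no condition on the law -/
def St_SUM : Prop := ∀ (p : Par) (lo hi : ℝ≥0), lo < hi → ∀ (B : Set (Sym2 V)) (Γ : ℝ≥0)
  (Z : Set Cfg) (o x : V) (a : V → ℝ) (π S t H lam : ℝ) (I : Finset (V × V)), 0 < lam → 0 ≤ H →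
  MeasurableSet Z →
  (∀ i ∈ I, G.Adj i.1 i.2 ∧ s(i.1, i.2) ∉ B ∧ Fr Z s(i.1, i.2) ∧
    p.pr ({τ | T (mk B Γ τ) o i.1 < a i.1} ∩ Z) ≤ π) →
  Rep p B Z (Psi o x t H) S →
  p.F.real (Set.Iic lo) * ((hi : ℝ) - lo) / 2 * ∑ i ∈ I,
      p.pr (EvX hi (((hi : ℝ) - lo) / 2) B Γ o x a i ∩ (Wn (((hi : ℝ) - lo) / 2) o x t H ∩ Z)) ≤
    lam / 2 * S + π / (2 * lam) * I.card

/-- one configuration with few marks -/
def St_PICK : Prop := ∀ (p : Par) (E Bad : Set Cfg) (I : Finset (V × V))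
  (Ev Ev' : V × V → Set Cfg) (ε : ℝ) (n : ℕ), 0 < ε → 1 ≤ n → MeasurableSet E →
  (∀ i, MeasurableSet (Ev i)) → (∀ i, MeasurableSet (Ev' i)) → ε / 2 ≤ p.pr E →
  p.pr Bad ≤ ε / 4 → ∑ i ∈ I, p.pr (Ev i ∩ E) + ∑ i ∈ I, p.pr (Ev' i ∩ E) ≤ ε * n / 32 →
  ∃ τ, τ ∈ E ∧ τ ∉ Bad ∧ 4 * (cn Ev I τ + cn Ev' I τ) ≤ n

/-- choice of the parameters -/
def St_ARITH : Prop := ∀ (c₀ : ℝ) (C₁ C₂ : ℕ), 0 < c₀ → c₀ ≤ 1 → ∃ C : ℕ, ∀ k : ℕ, 1 ≤ k →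
  ∃ M ρ₀ : ℕ, 2 ≤ ρ₀ ∧ 32 ≤ (c₀ / 4 ^ (6 * k)) ^ 107 * M ∧
    (∀ ρ : ℕ, ρ₀ ≤ ρ → 400 * ((C₁ : ℝ) * M * ρ) ^ 2 * (1 / 2) ^ ρ ≤ (c₀ / 4 ^ (6 * k)) ^ 56) ∧
    (C₂ * M) ^ (6 * k + 1) * ρ₀ ≤ 2 ^ (C * k ^ 2)

/-- the rate -/
def St_RATE : Prop := ∀ (c : ℝ) (C : ℕ), 0 < c → ∃ c' : ℝ, 0 < c' ∧ ∃ N₀ : ℝ, ∀ N s : ℝ, N₀ ≤ N →
  (∀ k : ℕ, 1 ≤ k → (2 : ℝ) ^ (C * k ^ 2) ≤ N → c * 4 ^ k ≤ s) →
  Real.exp (c' * √(Real.log N)) ≤ s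

end Pool.Agent.Lib.SX21
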