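import Pool.Agent.Lib.SX21.Blue
import Pool.Agent.Lib.SB97.B_SEG

/-! Row SEG1: the crossing of the first shell before the first exit. -/

namespace Pool.Agent.Lib.SX21

open Finset SimpleGraph Pool.Agent.Lib.FP95
open Pool.Agent.Lib.MP_eba68f_pr hiding Nice
open Pool.Agent.Lib.SL94 (SW T exists_lt)

theorem bSEG1 (hKIT : St_KIT) : St_SEG1 := by
  intro p τ Γ u v w s hw hs hv
  classical
  obtain ⟨q, hp, hq⟩ := exists_lt (τ := τ) (u := u) (v := v) (lt_add_of_pos_right _ hs)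
  have hL : (2 : ℝ) ≤ p.L := by exact_mod_cast p.L_ge
  obtain ⟨A, hA⟩ : ∃ A : ℝ, A = p.L * ((1 * w : ℕ) : ℝ) := ⟨_, rfl⟩
  obtain ⟨D, hD⟩ : ∃ D : ℝ, D = p.L * ((w - 1 : ℕ) : ℝ) := ⟨_, rfl⟩
  have D0 : 0 ≤ D := by rw [hD]; positivity
  have e0 : A = D + p.L := by
    rw [hA, hD, Nat.cast_sub hw]; push_cast; ring
  have e : (p.L : ℝ) * ((2 * w : ℕ) : ℝ) = 2 * A := by
    rw [hA]; push_cast; ring
  have e' : (p.L : ℝ) * (((1 + 1) * w : ℕ) : ℝ) = 2 * A := e
  rw [p.le_nn, e] at hv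
  have z : ∀ y : V, n1 (y - y) = 0 := fun y => by simp [n1]
  have h0 : n1 (q.getVert 0 - u) ≤ A := by rw [Walk.getVert_zero, z]; linarith
  have ex : ∃ j, 2 * A - 1 < n1 (q.getVert j - u) :=
    ⟨q.length, by rw [Walk.getVert_length]; linarith⟩
  obtain ⟨b, hb⟩ : ∃ b, b = Nat.find ex := ⟨_, rfl⟩
  have b1 : 2 * A - 1 < n1 (q.getVert b - u) := hb ▸ Nat.find_spec ex
  have b2 : b ≤ q.length :=
    hb ▸ Nat.find_min' ex (by rw [Walk.getVert_length]; linarith)
  have b3 : ∀ j, j ≤ b → n1 (q.getVert j - u) ≤ 2 * A := by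
    intro j hj
    rcases j with _ | j
    · linarith
    · have h1 := not_lt.1 (Nat.find_min ex (show j < Nat.find ex by omega))
      have h2 := SB97.SEG.n1_le u q j 1 (by omega)
      push_cast at h2
      linarith
  set t := Nat.findGreatest (fun j => n1 (q.getVert j - u) ≤ A) b with ht
  have t1 : t ≤ b := Nat.findGreatest_le _
  have t2 : n1 (q.getVert t - u) ≤ A :=
    Nat.findGreatest_spec (P := fun j => n1 (q.getVert j - u) ≤ A) (Nat.zero_le _) h0
  have t3 : ∀ j, t < j → j ≤ b → A < n1 (q.getVert j - u) := fun j h1 h2 =>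
    not_le.1 (Nat.findGreatest_is_greatest (P := fun j => n1 (q.getVert j - u) ≤ A) h1 h2)
  have t4 : t + 1 ≤ b := by
    rcases t1.lt_or_eq with h | h
    · exact h
    · rw [h] at t2
      linarith
  have t5 : n1 (q.getVert (t + 1) - u) ≤ A + 1 := by
    have := SB97.SEG.n1_le u q t 1 (by omega)
    push_cast at this
    linarith
  obtain ⟨m, hm⟩ := Nat.exists_eq_add_of_le t4
  refine ⟨m, fun j => q.getVert (t + 1 + j), ⟨fun j hj => ?_, fun a a' ha ha' h => ?_⟩,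
    fun j hj => ⟨?_, ?_⟩, ?_, fun j hj => ?_⟩
  · exact q.adj_getVert_succ (i := t + 1 + j) (by omega)
  · have := hp.getVert_injOn (show t + 1 + a ≤ q.length by omega)
      (show t + 1 + a' ≤ q.length by omega) h
    omega
  · rw [p.lt_nn, ← hA]
    exact t3 _ (by omega) (by omega)
  · rw [p.nn_le, e']
    exact b3 _ (by omega)
  · show _ ≤ n1 (q.getVert (t + 1 + m) - q.getVert (t + 1))
    rw [← hD, ← hm]
    linarith [n1_tri u (q.getVert (t + 1)) (q.getVert b)]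
  · have a0 := SL94.SEG.T_le_sum (mk (p.nr u ((2 * w : ℕ) : ℝ))ᶜ Γ τ) q
      (Nat.zero_le (t + 1 + j)) (by omega)
    have a3 : ∑ i ∈ Ico 0 (t + 1 + j),
        (mk (p.nr u ((2 * w : ℕ) : ℝ))ᶜ Γ τ s(q.getVert i, q.getVert (i + 1)) : ℝ) =
        ∑ i ∈ Ico 0 (t + 1 + j), (τ s(q.getVert i, q.getVert (i + 1)) : ℝ) := by
      refine sum_congr rfl fun i hi => ?_
      have hi' := (mem_Ico.1 hi).2
      have hm' : s(q.getVert i, q.getVert (i + 1)) ∈ p.nr u ((2 * w : ℕ) : ℝ) := fun y hy => by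
        rw [e]
        rcases Sym2.mem_iff.1 hy with rfl | rfl
        · exact b3 _ (by omega)
        · exact b3 _ (by omega)
      rw [hKIT.2.2.1 _ Γ τ _ (Set.notMem_compl_iff.2 hm')]
    have a1 := SL94.SEG.T_le_sum τ q (Nat.zero_le (t + 1 + j)) (by omega)
    have a2 := SL94.SEG.T_le_sum τ q (a := t + 1 + j + 1) (b := q.length) (by omega) le_rfl
    rw [Walk.getVert_zero] at a0 a1
    rw [Walk.getVert_length] at a2
    have a4 := sum_Ico_succ_top (Nat.zero_le (t + 1 + j))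
      (fun j => (τ s(q.getVert j, q.getVert (j + 1)) : ℝ))
    have a5 := sum_Ico_consecutive (fun j => (τ s(q.getVert j, q.getVert (j + 1)) : ℝ))
      (Nat.zero_le (t + 1 + j + 1)) (show t + 1 + j + 1 ≤ q.length by omega)
    rw [SL94.SEG.SW_eq, range_eq_Ico] at hq
    show T τ u (q.getVert (t + 1 + j)) + τ s(q.getVert (t + 1 + j), q.getVert (t + 1 + j + 1)) +
      T τ (q.getVert (t + 1 + j + 1)) v ≤ T τ u v + s ∧
      T (mk (p.nr u ((2 * w : ℕ) : ℝ))ᶜ Γ τ) u (q.getVert (t + 1 + j)) +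
        τ s(q.getVert (t + 1 + j), q.getVert (t + 1 + j + 1)) +
        T τ (q.getVert (t + 1 + j + 1)) v ≤ T τ u v + s
    constructor <;> linarith

end Pool.Agent.Lib.SX21
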