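import Pool.Agent.Lib.SX21.Blue0
import Pool.Agent.Lib.SBW.Blue

/-! Rows for the variance bound with fixed levels. -/

namespace Pool.Agent.Lib.SX21

open MeasureTheory ProbabilityTheory Filter Topology Finset Pool.Agent.Lib.FP95
open Pool.Agent.Lib.MP_eba68f_pr hiding Nice
open Pool.Agent.Lib.SL94 (SW T)
open Pool.Agent.Lib.SB97 (Qt Pth Dt)
open Pool.Agent.Lib.SBW (Sw Gain Lin Adm Light Rare Sh)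
open scoped NNReal ENNReal

/-- a piece of a nearly optimal path crossing the first shell, with a property `N` of its steps -/
def Cross (p : Sw) (τ : Cfg) (u v : V) (w : ℕ) (s : ℝ) (N : V → V → Prop) : Prop :=
  ∃ m g, Pth m g ∧ (∀ j, j ≤ m → Sh p u w 1 (g j)) ∧
    (p.L : ℝ) * ((w - 1 : ℕ) : ℝ) ≤ n1 (g m - g 0) ∧ ∀ j, j < m →
      T τ u (g j) + τ s(g j, g (j + 1)) + T τ (g (j + 1)) v ≤ T τ u v + s ∧ N (g j) (g (j + 1))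

/-- the martingale bound with the constants -/
def St_SUMC : Prop := ∀ (p : Sw) (B : Set (Sym2 V)) (Γ : ℝ≥0) (Z : Set Cfg) (o x : V)
  (a : V → ℝ) (π σ ε θ t H : ℝ) (w : ℕ) (I : Finset (V × V)), Adm p θ H → 0 < σ → 0 < ε →
  0 ≤ π → σ * π ≤ ε ^ 2 * θ → 2 ≤ w → (I.card : ℝ) ≤ 100 * ((p.L : ℝ) * w) ^ 2 →
  MeasurableSet Z →
  (∀ i ∈ I, G.Adj i.1 i.2 ∧ s(i.1, i.2) ∉ B ∧ Fr Z s(i.1, i.2) ∧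
    p.pr ({τ | T (mk B Γ τ) o i.1 < a i.1} ∩ Z) ≤ π) →
  Rep p.toPar B Z (Psi o x t H) (H ^ 2 * σ) →
  ∑ i ∈ I, p.pr (EvX p.hi (p.d / 2) B Γ o x a i ∩ (Wn (p.d / 2) o x t H ∩ Z)) ≤
    ε * ((w - 1 : ℕ) : ℝ) / 64

/-- a heavy unmarked step -/
def St_GOOD : Prop := ∀ (L : ℕ) (hi : ℝ≥0) (τ : Cfg) (I : Finset (V × V))
  (Ev Ev' : V × V → Set Cfg) (n m : ℕ) (g : ℕ → V), Pth m g → (L : ℝ) * n ≤ n1 (g m - g 0) →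
  τ ∉ Light L hi (g 0) n → (∀ j, j < m → (g j, g (j + 1)) ∈ I ∧ (g (j + 1), g j) ∈ I) →
  4 * (cn Ev I τ + cn Ev' I τ) ≤ n →
  ∃ j, j < m ∧ hi < τ s(g j, g (j + 1)) ∧ τ ∉ Ev (g j, g (j + 1)) ∧ τ ∉ Ev' (g (j + 1), g j)

/-- the crossing before the first exit -/
def St_SEG1 : Prop := ∀ (p : Sw) (τ : Cfg) (Γ : ℝ≥0) (u v : V) (w : ℕ) (s : ℝ), 1 ≤ w → 0 < s →
  ((2 * w : ℕ) : ℝ) ≤ p.nn (v - u) → Cross p τ u v w s fun y z =>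
    T (mk (p.nr u ((2 * w : ℕ) : ℝ))ᶜ Γ τ) u y + τ s(y, z) + T τ z v ≤ T τ u v + s

/-- the crossing after the last visit -/
def St_SEG2 : Prop := ∀ (p : Sw) (τ : Cfg) (B : Set (Sym2 V)) (Γ : ℝ≥0) (u v : V) (w : ℕ) (s : ℝ),
  1 ≤ w → 0 < s → B ⊆ p.nr u w → ((2 * w : ℕ) : ℝ) ≤ p.nn (v - u) → Cross p τ u v w s fun y z =>
    T τ u y + τ s(y, z) + T (mk B Γ τ) z v ≤ T τ u v + s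

/-- one good edge in the first shell -/
def St_ONE : Prop := ∀ (p : Sw), Rare p → ∀ (B₁ B₂ : Set (Sym2 V)) (Γ : ℝ≥0) (Z : Set Cfg)
  (u v : V) (a b : V → ℝ) (π₁ σ₁ π₂ σ₂ ε θ t H : ℝ) (w : ℕ) (N : Cfg → V → V → Prop),
  Adm p θ H → 0 < σ₁ → 0 < σ₂ → 0 < ε → 0 ≤ π₁ → 0 ≤ π₂ → σ₁ * π₁ ≤ ε ^ 2 * θ →
  σ₂ * π₂ ≤ ε ^ 2 * θ → 2 ≤ w → MeasurableSet Z →
  200 * (w : ℝ) ^ 2 * (1 / 2) ^ (w - 1) ≤ ε →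
  (∀ y z, G.Adj y z → Sh p u w 1 y → Sh p u w 1 z →
    s(y, z) ∉ B₁ ∧ s(y, z) ∉ B₂ ∧ Fr Z s(y, z)) →
  (∀ y, Sh p u w 1 y → p.pr ({τ | T (mk B₁ Γ τ) u y < a y} ∩ Z) ≤ π₁) →
  (∀ z, Sh p u w 1 z → p.pr ({τ | T (mk B₂ Γ τ) v z < b z} ∩ Z) ≤ π₂) →
  Rep p.toPar B₁ Z (Psi u v t H) (H ^ 2 * σ₁) → Rep p.toPar B₂ Z (Psi u v t H) (H ^ 2 * σ₂) →
  ε / 2 ≤ p.pr (Wn (p.d / 2) u v t H ∩ Z) → (∀ τ, Cross p τ u v w (p.d / 2) (N τ)) →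
  ∃ (τ : Cfg) (y z : V), T τ u v ≤ t ∧ G.Adj y z ∧ Sh p u w 1 y ∧ Sh p u w 1 z ∧
    p.hi < τ s(y, z) ∧ T τ u y + τ s(y, z) + T τ z v ≤ T τ u v + p.d / 2 ∧ N τ y z ∧
    (T (mk B₁ Γ τ) u y < T (mk B₁ Γ τ) u z → a y ≤ T (mk B₁ Γ τ) u y) ∧
    (T (mk B₂ Γ τ) v z < T (mk B₂ Γ τ) v y → b z ≤ T (mk B₂ Γ τ) v z)

/-- the outside decides much: the near leg has a high level -/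
def St_T1 : Prop := ∀ (p : Sw), Rare p → ∀ (K : ℝ), 0 < K → Lin p K →
  ∀ (Z : Set Cfg) (u v : V) (α κ θ t H : ℝ) (w : ℕ), Adm p θ H → 0 < α → α ≤ 1 → 0 < κ →
  κ ≤ 1 → 2 ≤ w → ((2 * w : ℕ) : ℝ) ≤ p.nn (v - u) →
  200 * (w : ℝ) ^ 2 * (1 / 2) ^ (w - 1) ≤ κ * α / 2 → MeasurableSet Z →
  OffS (p.nr u ((2 * w : ℕ) : ℝ)) Z → κ * α / 2 ≤ p.pr ({τ | T τ u v < t} ∩ Z) →
  κ / 2 * p.pr Z ≤ p.pr ({τ | T τ u v < t} ∩ Z) →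
  κ * α / 4 ≤ p.pr {τ | T τ u v ≤ t - H + p.d / 2} ∨
    ∃ (y z : V) (A A' : ℝ), G.Adj y z ∧ Sh p u w 1 y ∧ Sh p u w 1 z ∧
      Qt p.toPar (κ * θ / 2) u y A ∧ Qt p.toPar (κ * α * θ / 2) z v A' ∧
      A + p.hi + A' ≤ t + p.d / 2

/-- the outside decides little: the far leg has a high level -/
def St_T2 : Prop := ∀ (p : Sw), Rare p → ∀ (K : ℝ), 0 < K → Lin p K →
  ∀ (B : Set (Sym2 V)) (u v : V) (α κ θ t H : ℝ) (w : ℕ), Adm p θ H → 0 < α → α ≤ 1 / 2 →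
  0 < κ → α * θ / κ ≤ 1 / 2 → 2 ≤ w → B ⊆ p.nr u w → ((2 * w : ℕ) : ℝ) ≤ p.nn (v - u) →
  200 * (w : ℝ) ^ 2 * (1 / 2) ^ (w - 1) ≤ α → Qt p.toPar α u v t →
  Rep p.toPar B Set.univ (Psi u v t H) (H ^ 2 * (κ * α)) →
  α / 2 ≤ p.pr {τ | T τ u v ≤ t - H + p.d / 2} ∨
    ∃ (y z : V) (A A' : ℝ), G.Adj y z ∧ Sh p u w 1 y ∧ Sh p u w 1 z ∧
      Qt p.toPar (α * θ) u y A ∧ Qt p.toPar (α * θ / κ) z v A' ∧ A + p.hi + A' ≤ t + p.d / 2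

/-- a short segment of high level -/
def St_SPLIT : Prop := ∀ (p : Sw), Rare p → ∀ (K : ℝ), 0 < K → Lin p K →
  ∀ (z v : V) (θ t H : ℝ) (ρ : ℕ), Adm p θ H → θ ≤ p.q → θ ≤ 1 / 2 → 2 ≤ ρ →
  200 * (ρ : ℝ) ^ 2 * (1 / 2) ^ (ρ - 1) ≤ θ ^ 13 →
  200 * ((2 * ρ : ℕ) : ℝ) ^ 2 * (1 / 2) ^ (2 * ρ - 1) ≤ θ ^ 8 →
  ((6 * ρ : ℕ) : ℝ) ≤ p.nn (v - z) → Qt p.toPar (θ ^ 8) z v t →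
  θ ^ 17 ≤ p.pr {τ | T τ z v ≤ t - H + p.d / 2} ∨
    ∃ (z₀ y₀ : V) (γ A : ℝ) (W : Set Cfg), p.nn (z₀ - z) ≤ 4 * ρ ∧
      (ρ : ℝ) ≤ p.nn (y₀ - z₀) ∧ p.nn (y₀ - z₀) ≤ 2 * ρ ∧ θ ^ 6 ≤ γ ∧ γ ≤ 1 / 2 ∧
      Qt p.toPar γ z₀ y₀ A ∧ MeasurableSet W ∧ IsLowerSet W ∧ θ ^ 17 ≤ p.pr W ∧
      ∀ τ ∈ W, T τ z v ≤ T τ z₀ y₀ + (t - A) - p.d / 2

/-- one level is enough -/
def St_MONO : Prop := ∀ (p : Sw) (g ρ π c : ℝ), 0 < π → π < 1 →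
  (∀ (u v : V) (t : ℝ), ρ ≤ p.nn (v - u) → Qt p.toPar π u v t →
    c ≤ p.pr {τ | T τ u v ≤ t - g}) → Gain p g ρ π 0 c

/-- two halves -/
def St_CONC : Prop := ∀ (p : Sw), Rare p → ∀ (g π θ H c : ℝ) (ρ : ℕ), Adm p θ H → θ ≤ p.q →
  2 * g + p.d ≤ H → 2 ≤ ρ → 0 < π → 0 ≤ c → c ≤ π / 2 →
  200 * (ρ : ℝ) ^ 2 * (1 / 2) ^ (ρ - 1) ≤ π →
  Gain p g ρ (π * θ) 0 c → Gain p (2 * g + p.d / 2) ((3 * ρ : ℕ) : ℝ) π 0 (θ * c ^ 2)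

/-- many places -/
def St_RES : Prop := ∀ (p : Sw), Rare p → ∀ (K : ℝ), 0 < K → Lin p K →
  ∀ (g θ H φ : ℝ) (ρ L M w : ℕ), Adm p θ H → θ ≤ p.q → θ ≤ 1 / 2 → 0 ≤ g → g + p.d / 2 ≤ H →
  0 < φ → Gain p g ρ (θ ^ 6) 0 φ → 2 ≤ ρ → 4 * K * ρ + p.d ≤ p.hi * L →
  200 * (ρ : ℝ) ^ 2 * (1 / 2) ^ (ρ - 1) ≤ θ ^ 13 →
  200 * ((2 * ρ : ℕ) : ℝ) ^ 2 * (1 / 2) ^ (2 * ρ - 1) ≤ θ ^ 8 →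
  (1 / 2) ^ L ≤ φ / 2 → 1 ≤ M → 2 * L + 8 * ρ ≤ w →
  200 * ((M : ℝ) * w) ^ 2 * (1 / 2) ^ (w - 1) ≤ θ ^ 7 → 32 ≤ θ ^ 52 * M * φ →
  ∀ (u v : V) (t : ℝ), (((M + 1) * w + 6 * ρ : ℕ) : ℝ) ≤ p.nn (v - u) →
  Qt p.toPar (θ ^ 7) u v t → θ ^ 27 ≤ p.pr {τ | T τ u v ≤ t - g}

/-- one round -/
def St_STEP : Prop := ∀ (p : Sw), Rare p → ∀ (K g θ H : ℝ) (C₀ ρ M : ℕ), 0 < K →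
  Lin p K → 2 ≤ C₀ → 4 * K + p.d ≤ p.hi * C₀ → Adm p θ H → θ ≤ p.q → θ ≤ 1 / 2 → 0 ≤ g →
  2 * g + p.d ≤ H → 2 ≤ ρ → 32 ≤ θ ^ 107 * M →
  400 * (((6 * C₀ + 24 : ℕ) : ℝ) * M * ρ) ^ 2 * (1 / 2) ^ ρ ≤ θ ^ 56 →
  Gain p g ρ (θ ^ 7) 0 (θ ^ 27) →
  Gain p (2 * g + p.d / 2) (((12 * C₀ + 66) * M * ρ : ℕ) : ℝ) (θ ^ 7) 0 (θ ^ 27)

/-- `n` rounds -/
def St_ITER : Prop := ∀ (p : Sw), Rare p → ∀ (K θ H : ℝ) (C₀ ρ₀ M n : ℕ), 0 < K →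
  Lin p K → 2 ≤ C₀ → 4 * K + p.d ≤ p.hi * C₀ → Adm p θ H → θ ≤ p.q → θ ≤ 1 / 2 →
  2 ^ n * p.d ≤ H → 2 ≤ ρ₀ → 32 ≤ θ ^ 107 * M →
  (∀ ρ : ℕ, ρ₀ ≤ ρ → 400 * (((6 * C₀ + 24 : ℕ) : ℝ) * M * ρ) ^ 2 * (1 / 2) ^ ρ ≤ θ ^ 56) →
  Gain p ((2 ^ n - 1) * p.d / 2) ((((12 * C₀ + 66) * M) ^ n * ρ₀ : ℕ) : ℝ) (θ ^ 7) 0 (θ ^ 27)

/-- the last round -/
def St_TOP : Prop := ∀ (p : Sw), Rare p → ∀ (K : ℝ) (C₀ ρ₀ M k : ℕ), 0 < K → Lin p K →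
  2 ≤ C₀ → 4 * K + p.d ≤ p.hi * C₀ → 1 ≤ k → 2 ≤ ρ₀ →
  32 ≤ ((p.q / 2560) ^ 2 / 4 ^ (6 * k)) ^ 107 * M →
  (∀ ρ : ℕ, ρ₀ ≤ ρ → 400 * (((6 * C₀ + 24 : ℕ) : ℝ) * M * ρ) ^ 2 * (1 / 2) ^ ρ ≤
    ((p.q / 2560) ^ 2 / 4 ^ (6 * k)) ^ 56) →
  ∀ x : V, ((((12 * C₀ + 66) * M) ^ (6 * k + 1) * ρ₀ : ℕ) : ℝ) ≤ p.nn x →
  MemLp (fun τ => T τ 0 x) 2 p.P →
  p.q ^ 2 * ((p.q / 2560) ^ 2) ^ 3 * p.d ^ 2 / 1024 * 4 ^ k ≤ variance (fun τ => T τ 0 x) p.P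

end Pool.Agent.Lib.SX21
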